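import Pool.Agent.H64.BT.LocOrd

/-!
Barely transitive groups (with or without torsion) are not locally bi-orderable.
-/

set_option autoImplicit false

namespace H64.BT

open MulAction Function H47.BT

/-- a bi-ordered group has no nontrivial elements of finite order -/
theorem ord_tf {F : Type*} [Group F] (o : LinearOrder F)
    (h1 : ∀ a b c : F, a ≤ b → c * a ≤ c * b) (g : F) (hg : IsOfFinOrder g) : g = 1 := by
  obtain ⟨n, hn, hgn⟩ := isOfFinOrder_iff_pow_eq_one.1 hg
  by_contra hne
  rcases lt_or_gt_of_ne hne with h | h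
  · have key : ∀ m : ℕ, g ^ (m + 1) < 1 := by
      intro m
      induction m with
      | zero => rwa [zero_add, pow_one]
      | succ m ih =>
        rw [pow_succ]
        have := h1 _ _ (g ^ (m + 1)) h.le
        rw [mul_one] at this
        exact lt_of_le_of_lt this ih
    obtain ⟨m, rfl⟩ : ∃ m, n = m + 1 := ⟨n - 1, by omega⟩
    exact (key m).ne hgn
  · have key : ∀ m : ℕ, 1 < g ^ (m + 1) := by
      intro m
      induction m with
      | zero => rwa [zero_add, pow_one]
      | succ m ih =>
        rw [pow_succ]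
        have := h1 _ _ (g ^ (m + 1)) h.le
        rw [mul_one] at this
        exact lt_of_lt_of_le ih this
    obtain ⟨m, rfl⟩ : ∃ m, n = m + 1 := ⟨n - 1, by omega⟩
    exact (key m).ne' hgn

theorem all_order {G Ω : Type*} [Group G] [MulAction G Ω] [FaithfulSMul G Ω]
    [MulAction.IsPretransitive G Ω] [Infinite Ω]
    (bare : ∀ K : Subgroup G, K ≠ ⊤ → ∀ x : Ω, (MulAction.orbit K x).Finite) :
    ∃ F : Subgroup G, F.FG ∧
      ¬ ∃ _ : LinearOrder F, (∀ a b c : F, a ≤ b → c * a ≤ c * b) ∧
        (∀ a b c : F, a ≤ b → a * c ≤ b * c) := by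
  by_cases tf : ∀ g : G, IsOfFinOrder g → g = 1
  · exact loc_order ⟨inferInstance, inferInstance, inferInstance, bare, tf⟩
  · push Not at tf
    obtain ⟨g, hg, hg1⟩ := tf
    refine ⟨Subgroup.zpowers g, ?_, ?_⟩
    · rw [Subgroup.zpowers_eq_closure]
      exact ⟨{g}, by simp⟩
    · rintro ⟨o, h1, _⟩
      apply hg1
      have h2 : IsOfFinOrder (⟨g, Subgroup.mem_zpowers g⟩ : Subgroup.zpowers g) := by
        obtain ⟨n, hn, hgn⟩ := isOfFinOrder_iff_pow_eq_one.1 hg
        refine isOfFinOrder_iff_pow_eq_one.2 ⟨n, hn, ?_⟩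
        exact Subtype.ext hgn
      exact congrArg Subtype.val (ord_tf o h1 _ h2)

end H64.BT
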