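import Pool.Agent.H64.BT.Ping

/-!
Amalgamated products: ping-pong data.
-/

set_option autoImplicit false

namespace H64.BT

open MulAction Function

section
variable {G X ι : Type*} [Group G] [MulAction G X]

/-- subgroups `A i` generating `G`, containing `C`, playing ping-pong on the sets `P i` -/
structure Pp (A : ι → Subgroup G) (C : Subgroup G) (P : ι → Set X) : Prop where
  le : ∀ i, C ≤ A i
  gen : ⨆ i, A i = ⊤
  disj : ∀ i j, i ≠ j → ∀ x, x ∈ P i → x ∉ P j
  ping : ∀ i, ∀ a ∈ A i, a ∉ C → ∀ x, x ∉ P i → a • x ∈ P i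

/-- reduced words of given length and first index whose last index is not `j` -/
inductive R (A : ι → Subgroup G) (C : Subgroup G) (j : ι) : ℕ → ι → G → Prop
  | single (k : ι) (a : G) : k ≠ j → a ∈ A k → a ∉ C → R A C j 1 k a
  | cons (n : ℕ) (k k' : ι) (a g : G) : k ≠ k' → a ∈ A k → a ∉ C → R A C j n k' g →
      R A C j (n + 1) k (a * g)

variable {A : ι → Subgroup G} {C : Subgroup G} {P : ι → Set X} {j : ι}

theorem R.act (h : Pp A C P) {n : ℕ} {k : ι} {g : G} (hr : R A C j n k g) :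
    ∀ x ∈ P j, g • x ∈ P k := by
  induction hr with
  | single k a hk ha haC =>
    intro x hx
    exact h.ping k a ha haC x (h.disj j k (Ne.symm hk) x hx)
  | cons n k k' a g hk ha haC _ ih =>
    intro x hx
    rw [mul_smul]
    exact h.ping k a ha haC _ (h.disj k' k (Ne.symm hk) _ (ih x hx))

theorem R.pos {n : ℕ} {k : ι} {g : G} (hr : R A C j n k g) : 1 ≤ n := by
  cases hr with
  | single => exact le_refl _
  | cons => omega

theorem R.base (h : Pp A C P) {n : ℕ} {k : ι} {g c : G} (hc : c ∈ C) (hr : R A C j n k g) :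
    R A C j n k (c * g) := by
  cases hr with
  | single _ a hk ha haC =>
    refine R.single k _ hk (mul_mem (h.le k hc) ha) ?_
    intro h1
    exact haC ((Subgroup.mul_mem_cancel_left C hc).1 h1)
  | cons n _ k' a g hk ha haC hr =>
    rw [← mul_assoc]
    refine R.cons n k k' _ g hk (mul_mem (h.le k hc) ha) ?_ hr
    intro h1
    exact haC ((Subgroup.mul_mem_cancel_left C hc).1 h1)

theorem R.letter (h : Pp A C P) {n : ℕ} {k l : ι} {g x : G} (hx : x ∈ A l)
    (hn : 1 ≤ n) (hr : R A C j (n + 1) k g) :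
    ∃ m k', n ≤ m ∧ R A C j m k' (x * g) := by
  by_cases hxC : x ∈ C
  · exact ⟨n + 1, k, by omega, R.base h hxC hr⟩
  by_cases hlk : l = k
  · subst hlk
    generalize hm : n + 1 = m at hr
    cases hr with
    | single => omega
    | cons n' _ k' a g hk ha haC hr =>
      rw [← mul_assoc]
      by_cases hxa : x * a ∈ C
      · exact ⟨n', k', by omega, R.base h hxa hr⟩
      · exact ⟨n' + 1, l, by omega, R.cons n' l k' _ g hk (mul_mem hx ha) hxa hr⟩
  · exact ⟨n + 2, l, by omega, R.cons (n + 1) l k x g hlk hx hxC hr⟩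

theorem R.all (h : Pp A C P) (u : G) :
    ∃ N : ℕ, ∀ n, N < n → ∀ k g, R A C j n k g → ∃ m k', n ≤ m + N ∧ R A C j m k' (u * g) := by
  have hu : u ∈ ⨆ i, A i := by
    rw [h.gen]
    trivial
  refine Subgroup.iSup_induction A (C := fun u => ∃ N : ℕ, ∀ n, N < n → ∀ k g, R A C j n k g →
    ∃ m k', n ≤ m + N ∧ R A C j m k' (u * g)) hu ?_ ?_ ?_
  · intro i x hx
    refine ⟨1, fun n hn k g hr => ?_⟩
    obtain ⟨m, rfl⟩ : ∃ m, n = m + 1 := ⟨n - 1, by omega⟩
    obtain ⟨m', k', h1, h2⟩ := R.letter h hx (by omega) hr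
    exact ⟨m', k', by omega, h2⟩
  · refine ⟨0, fun n _ k g hr => ⟨n, k, by omega, ?_⟩⟩
    rwa [one_mul]
  · rintro x y ⟨N₁, h₁⟩ ⟨N₂, h₂⟩
    refine ⟨N₁ + N₂, fun n hn k g hr => ?_⟩
    obtain ⟨m, k', h3, h4⟩ := h₂ n (by omega) k g hr
    obtain ⟨m', k'', h5, h6⟩ := h₁ m (by omega) k' _ h4
    refine ⟨m', k'', by omega, ?_⟩
    rwa [mul_assoc]

/-- the translates of `P j` -/
def Fam (G : Type*) {X : Type*} [Group G] [MulAction G X] (S : Set X) : Set (Set X) :=
  Set.range (fun z : G => {x : X | z⁻¹ • x ∈ S})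

theorem pp_data (h : Pp A C P) [Nonempty X] {i k : ι} {a b d : G} (hij : i ≠ j) (hkj : k ≠ j)
    (ha : a ∈ A i) (haC : a ∉ C) (hb : b ∈ A j) (hbC : b ∉ C) (hd : d ∈ A k) (hdC : d ∉ C)
    (had : i ≠ k ∨ a⁻¹ * d ∉ C) : Data G (Fam G (P j)) := by
  have hPne : (P j).Nonempty := by
    obtain ⟨x⟩ := (inferInstance : Nonempty X)
    by_cases hx : x ∈ P j
    · exact ⟨x, hx⟩
    · exact ⟨_, h.ping j b hb hbC x hx⟩
  -- the words `(b a)^(m+1)`
  have hw : ∀ m : ℕ, R A C j (2 * m + 2) j ((b * a) ^ (m + 1)) := by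
    intro m
    induction m with
    | zero =>
      rw [zero_add, pow_one]
      exact R.cons 1 j i b a (Ne.symm hij) hb hbC (R.single i a hij ha haC)
    | succ m ih =>
      rw [pow_succ' (b * a) (m + 1), mul_assoc]
      exact R.cons _ j i b _ (Ne.symm hij) hb hbC (R.cons _ i j a _ hij ha haC ih)
  -- the words `b (a b)^m d`
  have hv : ∀ m : ℕ, R A C j (2 * m + 2) j (b * ((a * b) ^ m * d)) := by
    intro m
    induction m with
    | zero =>
      rw [pow_zero, one_mul]
      exact R.cons 1 j k b d (Ne.symm hkj) hb hbC (R.single k d hkj hd hdC)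
    | succ m ih =>
      rw [pow_succ' (a * b) m, mul_assoc (a * b), mul_assoc a b]
      exact R.cons _ j i b _ (Ne.symm hij) hb hbC (R.cons _ i j a _ hij ha haC ih)
  refine ⟨?_, ?_, ⟨P j, ⟨1, ?_⟩, {x : X | a⁻¹ • x ∈ P j}, ⟨a, rfl⟩, ?_⟩,
    ⟨fun n => {x : X | ((a * b) ^ n * d)⁻¹ • x ∈ P j}, fun n => ⟨_, rfl⟩, ?_⟩⟩
  · rintro _ ⟨z, rfl⟩
    obtain ⟨p, hp⟩ := hPne
    refine ⟨z • p, ?_⟩
    show z⁻¹ • z • p ∈ P j
    rwa [inv_smul_smul]
  · rintro _ ⟨z, rfl⟩ _ ⟨z', rfl⟩
    refine ⟨z * b * z'⁻¹, fun x hx => ?_⟩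
    show z⁻¹ • (z * b * z'⁻¹) • x ∈ P j
    rw [← mul_smul]
    have : z⁻¹ * (z * b * z'⁻¹) = b * z'⁻¹ := by group
    rw [this, mul_smul]
    exact h.ping j b hb hbC _ hx
  · ext x
    simp
  · rintro _ ⟨z, rfl⟩ u
    obtain ⟨N, hN⟩ := R.all (j := j) h (u * z)
    obtain ⟨m, k', h1, h2⟩ := hN (2 * N + 2) (by omega) _ _ (hw N)
    set w := (b * a) ^ (N + 1) with hwdef
    refine ⟨{x : X | (z * w)⁻¹ • x ∈ P j}, ⟨z * w, rfl⟩, ?_, ?_⟩
    · intro x hx
      show z⁻¹ • x ∈ P j
      have h3 := R.act h (hw N) _ hx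
      rw [← hwdef, ← mul_smul] at h3
      have : w * (z * w)⁻¹ = z⁻¹ := by group
      rwa [this] at h3
    · have h4 : ∀ x ∈ {x : X | (z * w)⁻¹ • x ∈ P j}, u • x ∈ P k' := by
        intro x hx
        have h3 := R.act h h2 _ hx
        rw [← mul_smul] at h3
        have : u * z * w * (z * w)⁻¹ = u := by group
        rwa [this] at h3
      by_cases hk' : k' = j
      · right
        intro x hx hx1
        have h5 := h4 x hx
        rw [hk'] at h5
        have h6 : a • a⁻¹ • (u • x) ∈ P i := by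
          exact h.ping i a ha haC _ (h.disj j i (Ne.symm hij) _ hx1)
        rw [smul_inv_smul] at h6
        exact h.disj i j hij _ h6 h5
      · left
        intro x hx hx1
        exact h.disj k' j hk' _ (h4 x hx) hx1
  · -- pairwise disjoint
    have key : ∀ n m : ℕ, n < m → ∀ x : X, ((a * b) ^ n * d)⁻¹ • x ∈ P j →
        ((a * b) ^ m * d)⁻¹ • x ∈ P j → False := by
      intro n m hnm x h1 h2
      obtain ⟨t, rfl⟩ : ∃ t, m = n + (t + 1) := ⟨m - n - 1, by omega⟩
      set p := ((a * b) ^ n * d)⁻¹ • x with hp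
      set p' := ((a * b) ^ (n + (t + 1)) * d)⁻¹ • x with hp'
      have h3 := R.act h (hv t) _ h2
      -- `a • (b (a b)^t d p') = d p`
      have h4 : a • (b * ((a * b) ^ t * d)) • p' = d • p := by
        rw [hp, hp', ← mul_smul, ← mul_smul, ← mul_smul]
        congr 1
        rw [pow_add, pow_succ']
        group
      set q := (b * ((a * b) ^ t * d)) • p' with hq
      have h5 : d • p ∈ P k := h.ping k d hd hdC _ (h.disj j k (Ne.symm hkj) _ h1)
      have h6 : a • q ∈ P i := h.ping i a ha haC _ (h.disj j i (Ne.symm hij) _ h3)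
      rcases had with hik | hadC
      · rw [h4] at h6
        exact h.disj i k hik _ h6 h5
      · by_cases hik : i = k
        · subst hik
          have h7 : (a⁻¹ * d) • p ∈ P i :=
            h.ping i _ (mul_mem (inv_mem ha) hd) hadC _ (h.disj j i (Ne.symm hij) _ h1)
          rw [mul_smul, ← h4, inv_smul_smul] at h7
          exact h.disj i j hij _ h7 h3
        · rw [h4] at h6
          exact h.disj i k hik _ h6 h5
    intro n m hnm
    rw [Function.onFun, Set.disjoint_left]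
    intro x hx hx'
    rcases lt_or_gt_of_ne hnm with h1 | h1
    · exact key n m h1 x hx hx'
    · exact key m n h1 x hx' hx

end

end H64.BT
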