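import Pool.Agent.H64.BT.Chain

/-!
Barely transitive groups are not bi-orderable.
-/

set_option autoImplicit false

namespace H64.BT

open MulAction Function H47.BT

section
variable {G Ω : Type*} [Group G] [MulAction G Ω]

section
variable [LinearOrder G] [MulLeftMono G] [MulRightMono G]

theorem conj_cv (k g : G) : cj k (Cv g) = Cv (k * g * k⁻¹) := by
  ext x
  rw [mem_cj, mem_Cv, mem_Cv]
  have e : ∀ n : ℕ, k * g ^ n * k⁻¹ = (k * g * k⁻¹) ^ n := fun n => conj_pow.symm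
  have e' : ∀ n : ℕ, k * g⁻¹ ^ n * k⁻¹ = ((k * g * k⁻¹)⁻¹) ^ n := by
    intro n
    rw [← conj_pow]
    congr 1
    group
  constructor
  · rintro ⟨n, h1, h2⟩
    refine ⟨n, ?_, ?_⟩
    · have h3 := conj_mono k h1
      rw [e'] at h3
      have : k * (k⁻¹ * x * k) * k⁻¹ = x := by group
      rwa [this] at h3
    · have h3 := conj_mono k h2
      rw [e] at h3
      have : k * (k⁻¹ * x * k) * k⁻¹ = x := by group
      rwa [this] at h3
  · rintro ⟨n, h1, h2⟩
    refine ⟨n, ?_, ?_⟩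
    · rw [← e'] at h1
      have h3 := conj_mono k⁻¹ h1
      have e2 : k⁻¹ * (k * g⁻¹ ^ n * k⁻¹) * k⁻¹⁻¹ = g⁻¹ ^ n := by group
      have e3 : k⁻¹ * x * k⁻¹⁻¹ = k⁻¹ * x * k := by group
      rwa [e2, e3] at h3
    · rw [← e] at h2
      have h3 := conj_mono k⁻¹ h2
      have e2 : k⁻¹ * (k * g ^ n * k⁻¹) * k⁻¹⁻¹ = g ^ n := by group
      have e3 : k⁻¹ * x * k⁻¹⁻¹ = k⁻¹ * x * k := by group
      rwa [e2, e3] at h3

omit [MulRightMono G] in
theorem zp_mono {g : G} (hg : 1 < g) {m n : ℤ} (h : m ≤ n) : g ^ m ≤ g ^ n := by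
  obtain ⟨k, rfl⟩ := Int.le.dest h
  rw [zpow_add, zpow_natCast]
  exact le_mul_of_one_le_right' (one_le_pow_of_one_le' hg.le k)

omit [MulRightMono G] in
theorem zp_lt {g : G} (hg : 1 < g) (m : ℤ) : g ^ m < g ^ (m + 1) := by
  refine lt_of_le_of_ne (zp_mono hg (by omega)) ?_
  intro hc
  rw [zpow_add, zpow_one] at hc
  exact hg.ne (mul_left_cancel (hc.symm.trans (mul_one _).symm)).symm

/-- integer parts -/
theorem floor {g : G} (hg : 1 < g) (hc : Cv g = ⊤) (x : G) :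
    ∃ m : ℤ, g ^ m ≤ x ∧ x < g ^ (m + 1) := by
  obtain ⟨n, h1, h2⟩ : x ∈ Cv g := by
    rw [hc]
    trivial
  obtain ⟨m, hm, hmax⟩ := Int.exists_greatest_of_bdd (P := fun z : ℤ => g ^ z ≤ x)
    ⟨(n : ℤ), fun z hz => by
      by_contra hcon
      push Not at hcon
      have h3 : g ^ (n : ℤ) < x :=
        lt_of_lt_of_le (zp_lt hg _) (le_trans (zp_mono hg (by omega)) hz)
      rw [zpow_natCast] at h3
      exact absurd h2 (not_le_of_gt h3)⟩
    ⟨-(n : ℤ), by
      show g ^ (-(n : ℤ)) ≤ x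
      rwa [zpow_neg, zpow_natCast, ← inv_pow]⟩
  refine ⟨m, hm, ?_⟩
  by_contra hcon
  push Not at hcon
  have := hmax (m + 1) hcon
  omega

theorem no_order (hB : Bare G Ω) : False := by
  obtain ⟨g₀, hg₀⟩ := hB.exists_ne
  have hCv : ∀ g : G, 1 < g → Cv g = ⊤ := by
    intro g hg
    rcases chain hB (Cv g) (by
      intro k
      rw [conj_cv]
      rcases le_total (k * g * k⁻¹) g with h | h
      · exact Or.inl (Cv_mono h)
      · exact Or.inr (Cv_mono h)) with h1 | h1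
    · exfalso
      have h2 : g ∈ Cv g := by
        refine ⟨1, ?_, ?_⟩
        · rw [pow_one]
          exact le_trans (Left.inv_le_one_iff.2 hg.le) hg.le
        · rw [pow_one]
      rw [h1] at h2
      exact hg.ne' (Subgroup.mem_bot.1 h2)
    · exact h1
  -- a small element
  have hpos : ∃ g : G, 1 < g := by
    rcases lt_or_gt_of_ne hg₀ with h | h
    · exact ⟨g₀⁻¹, one_lt_inv_of_inv h⟩
    · exact ⟨g₀, h⟩
  have hdense : ∀ c : G, 1 < c → ∃ e : G, 1 < e ∧ e < c := by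
    intro c hc
    by_contra hcon
    push Not at hcon
    apply hB.cyc c
    rw [eq_top_iff]
    intro x _
    obtain ⟨m, h1, h2⟩ := floor hc (hCv c hc) x
    have h3 : 1 ≤ (c ^ m)⁻¹ * x := by
      have := mul_le_mul_right h1 (c ^ m)⁻¹
      rwa [inv_mul_cancel] at this
    have h4 : (c ^ m)⁻¹ * x ≤ c := by
      have := mul_le_mul_right h2.le (c ^ m)⁻¹
      rwa [zpow_add, zpow_one, inv_mul_cancel_left] at this
    have h5 : (c ^ m)⁻¹ * x ≠ c := by
      intro h6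
      apply h2.ne
      rw [zpow_add, zpow_one]
      calc x = c ^ m * ((c ^ m)⁻¹ * x) := by rw [mul_inv_cancel_left]
        _ = c ^ m * c := by rw [h6]
    have h6 : (c ^ m)⁻¹ * x = 1 := by
      by_contra h7
      exact h5 (le_antisymm h4 (hcon _ (lt_of_le_of_ne h3 (Ne.symm h7))))
    rw [inv_mul_eq_one] at h6
    rw [← h6]
    exact ⟨m, rfl⟩
  have hsq : ∀ c : G, 1 < c → ∃ d : G, 1 < d ∧ d * d ≤ c := by
    intro c hc
    obtain ⟨e, he1, he2⟩ := hdense c hc
    have hf : 1 < e⁻¹ * c := by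
      refine lt_of_le_of_ne ?_ ?_
      · have := mul_le_mul_right he2.le e⁻¹
        rwa [inv_mul_cancel] at this
      · intro h1
        apply he2.ne
        exact (inv_mul_eq_one.1 h1.symm)
    rcases le_total e (e⁻¹ * c) with h1 | h1
    · refine ⟨e, he1, ?_⟩
      have := mul_le_mul_right h1 e
      rwa [mul_inv_cancel_left] at this
    · refine ⟨e⁻¹ * c, hf, ?_⟩
      have := mul_le_mul_left h1 (e⁻¹ * c)
      rwa [mul_inv_cancel_left] at this
  -- commutativity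
  have hcomm : ∀ a b : G, ¬ 1 < a * b * (b * a)⁻¹ := by
    intro a b hc
    obtain ⟨d, hd1, hd2⟩ := hsq _ hc
    obtain ⟨m, h1, h2⟩ := floor hd1 (hCv d hd1) a
    obtain ⟨n, h3, h4⟩ := floor hd1 (hCv d hd1) b
    have h5 : a * b ≤ d ^ (m + 1) * d ^ (n + 1) := mul_le_mul' h2.le h4.le
    have h6 : d ^ n * d ^ m ≤ b * a := mul_le_mul' h3 h1
    have h7 : (b * a)⁻¹ ≤ (d ^ n * d ^ m)⁻¹ := inv_le_inv_iff.2 h6
    have h8 : a * b * (b * a)⁻¹ ≤ d ^ (m + 1) * d ^ (n + 1) * (d ^ n * d ^ m)⁻¹ :=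
      mul_le_mul' h5 h7
    have h9 : d ^ (m + 1) * d ^ (n + 1) * (d ^ n * d ^ m)⁻¹ = d * d := by
      rw [← zpow_add, ← zpow_add, ← zpow_neg, ← zpow_add, ← zpow_two]
      congr 1
      ring
    rw [h9] at h8
    have h10 : a * b * (b * a)⁻¹ = d * d := le_antisymm h8 hd2
    -- equality forces `a b = d^(m+n+2)`
    have h11 : a * b < d ^ (m + 1) * d ^ (n + 1) := by
      refine lt_of_le_of_ne h5 ?_
      intro h12
      have h13 : a * b ≤ d ^ (m + 1) * b := mul_le_mul_left h2.le b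
      have h14 : d ^ (m + 1) * b ≤ d ^ (m + 1) * d ^ (n + 1) := mul_le_mul_right h4.le _
      have h15 : d ^ (m + 1) * b = d ^ (m + 1) * d ^ (n + 1) :=
        le_antisymm h14 (h12 ▸ h13)
      exact h4.ne (mul_left_cancel h15)
    have h16 : a * b * (b * a)⁻¹ ≤ a * b * (d ^ n * d ^ m)⁻¹ := mul_le_mul_right h7 _
    have h17 : a * b * (d ^ n * d ^ m)⁻¹ ≤ d ^ (m + 1) * d ^ (n + 1) * (d ^ n * d ^ m)⁻¹ :=
      mul_le_mul_left h5 _
    rw [h9, ← h10] at h17
    have h18 : a * b * (d ^ n * d ^ m)⁻¹ = d ^ (m + 1) * d ^ (n + 1) * (d ^ n * d ^ m)⁻¹ := by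
      rw [h9, ← h10]
      exact le_antisymm h17 h16
    exact h11.ne (mul_right_cancel h18)
  have hab : ∀ a b : G, a * b = b * a := by
    intro a b
    rcases lt_trichotomy (a * b * (b * a)⁻¹) 1 with h | h | h
    · exfalso
      apply hcomm b a
      have := one_lt_inv_of_inv h
      rwa [mul_inv_rev, inv_inv] at this
    · exact mul_inv_eq_one.1 h
    · exact absurd h (hcomm a b)
  have hz : g₀ ∈ Subgroup.center G := Subgroup.mem_center_iff.2 fun a => hab a g₀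
  rw [hB.ctr] at hz
  exact hg₀ (Subgroup.mem_bot.1 hz)

end

end

end H64.BT
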