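import Pool.Agent.H47.BT.Conc

/-!
Torsion-free barely transitive groups: subgroups with pairwise comparable conjugates; orders.
-/

set_option autoImplicit false

namespace H64.BT

open MulAction Function H47.BT

section
variable {G Ω : Type*} [Group G] [MulAction G Ω]

theorem pow_fix {h : G} {ω : Ω} (hfin : (orbit (Subgroup.zpowers h) ω).Finite) :
    ∃ p : ℕ, 0 < p ∧ h ^ p • ω = ω := by
  have h1 : ∃ m n : ℕ, m < n ∧ h ^ m • ω = h ^ n • ω := by
    by_contra hc
    push Not at hc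
    refine absurd hfin (Set.infinite_of_injective_forall_mem (f := fun n : ℕ => h ^ n • ω) ?_ ?_)
    · intro m n hmn
      by_contra hne
      rcases lt_or_gt_of_ne hne with h1 | h1
      · exact hc m n h1 hmn
      · exact hc n m h1 hmn.symm
    · intro n
      exact ⟨⟨h ^ n, n, zpow_natCast h n⟩, rfl⟩
  obtain ⟨m, n, hmn, hh⟩ := h1
  refine ⟨n - m, by omega, ?_⟩
  have h2 : h ^ n = h ^ m * h ^ (n - m) := by
    rw [← pow_add]
    congr 1
    omega
  rw [h2, mul_smul] at hh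
  exact (smul_left_cancel _ hh).symm

theorem chain (hB : Bare G Ω) (D : Subgroup G)
    (hD : ∀ g : G, cj g D ≤ D ∨ D ≤ cj g D) : D = ⊥ ∨ D = ⊤ := by
  by_contra hcon
  push Not at hcon
  obtain ⟨hbot, htop⟩ := hcon
  have hinf := hB.inf
  have htr := hB.trans
  obtain ⟨ω⟩ := hB.exists_point
  have hcomp : ∀ g h : G, cj g D ≤ cj h D ∨ cj h D ≤ cj g D := by
    intro g h
    rcases hD (g⁻¹ * h) with h1 | h1
    · right
      have h2 := cj_mono g h1
      rwa [← cj_mul, mul_inv_cancel_left] at h2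
    · left
      have h2 := cj_mono g h1
      rwa [← cj_mul, mul_inv_cancel_left] at h2
  let N : Subgroup G :=
    { carrier := {x | ∃ g : G, x ∈ cj g D}
      one_mem' := ⟨1, one_mem _⟩
      mul_mem' := by
        rintro x y ⟨g, hx⟩ ⟨h, hy⟩
        rcases hcomp g h with h1 | h1
        · exact ⟨h, mul_mem (h1 hx) hy⟩
        · exact ⟨g, mul_mem hx (h1 hy)⟩
      inv_mem' := by
        rintro x ⟨g, hx⟩
        exact ⟨g, inv_mem hx⟩ }
  have hN : N.Normal := by
    refine ⟨?_⟩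
    rintro n ⟨g, hn⟩ k
    refine ⟨k * g, ?_⟩
    rw [cj_mul, mem_cj]
    have : k⁻¹ * (k * n * k⁻¹) * k = n := by group
    rwa [this]
  have hNtop : N = ⊤ := by
    rcases hB.simple N hN with h1 | h1
    · exfalso
      apply hbot
      rw [Subgroup.eq_bot_iff_forall]
      intro x hx
      have h2 : x ∈ N := ⟨1, by rwa [cj_one]⟩
      rw [h1] at h2
      exact Subgroup.mem_bot.1 h2
    · exact h1
  have hfin := hB.bare D htop ω
  have hall : ∀ x : Ω, x ∈ orbit D ω := by
    intro x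
    obtain ⟨y, rfl⟩ := exists_smul_eq G ω x
    obtain ⟨h, hy⟩ : y ∈ N := by
      rw [hNtop]
      trivial
    rcases hD h with h1 | h1
    · exact ⟨⟨y, h1 hy⟩, rfl⟩
    · obtain ⟨p, hp, hpω⟩ := pow_fix (hB.bare _ (hB.cyc h) ω)
      have hle : ∀ n : ℕ, cj (h ^ n) D ≤ cj (h ^ (n + 1)) D := by
        intro n
        rw [pow_succ, cj_mul]
        exact cj_mono _ h1
      have hmono : Monotone fun n : ℕ => cj (h ^ n) D := monotone_nat_of_le_succ hle
      have h2 : D ≤ cj (h ^ p) D := by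
        have := hmono (Nat.zero_le p)
        simp only [pow_zero] at this
        rwa [cj_one] at this
      have h3 : cj h D ≤ cj (h ^ p) D := by
        have := hmono (show 1 ≤ p from hp)
        simp only [pow_one] at this
        exact this
      -- the orbit of `cj (h ^ p) D` is the translate of the orbit of `D`
      have h4 : ∀ z ∈ cj (h ^ p) D, ∃ δ ∈ orbit D ω, z • ω = h ^ p • δ := by
        intro z hz
        rw [mem_cj] at hz
        refine ⟨((h ^ p)⁻¹ * z * h ^ p) • ω, ⟨⟨_, hz⟩, rfl⟩, ?_⟩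
        rw [← mul_smul]
        have : h ^ p * ((h ^ p)⁻¹ * z * h ^ p) = z * h ^ p := by group
        rw [this, mul_smul, hpω]
      have h5 : orbit D ω ⊆ (fun δ => h ^ p • δ) '' orbit D ω := by
        rintro _ ⟨⟨z, hz⟩, rfl⟩
        obtain ⟨δ, hδ, hδ'⟩ := h4 z (h2 hz)
        exact ⟨δ, hδ, hδ'.symm⟩
      have h6 : orbit D ω = (fun δ => h ^ p • δ) '' orbit D ω := by
        refine Set.eq_of_subset_of_ncard_le h5 ?_ (hfin.image _)
        exact Set.ncard_image_le hfin
      obtain ⟨δ, hδ, hδ'⟩ := h4 y (h3 hy)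
      show y • ω ∈ orbit D ω
      rw [hδ', h6]
      exact ⟨δ, hδ, rfl⟩
  have h7 : (Set.univ : Set Ω).Finite := hfin.subset fun x _ => hall x
  exact Set.infinite_univ h7

/-- the convex subgroup generated by `g > 1` -/
def Cv [LinearOrder G] [MulLeftMono G] [MulRightMono G] (g : G) : Subgroup G where
  carrier := {x | ∃ n : ℕ, (g⁻¹) ^ n ≤ x ∧ x ≤ g ^ n}
  one_mem' := ⟨0, by simp, by simp⟩
  mul_mem' := by
    rintro x y ⟨n, h1, h2⟩ ⟨m, h3, h4⟩
    refine ⟨n + m, ?_, ?_⟩
    · rw [pow_add]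
      exact mul_le_mul' h1 h3
    · rw [pow_add]
      exact mul_le_mul' h2 h4
  inv_mem' := by
    rintro x ⟨n, h1, h2⟩
    refine ⟨n, ?_, ?_⟩
    · rw [inv_pow]
      exact inv_le_inv_iff.2 h2
    · have := inv_le_inv_iff.2 h1
      rwa [inv_pow, inv_inv] at this

theorem mem_Cv [LinearOrder G] [MulLeftMono G] [MulRightMono G] {g x : G} :
    x ∈ Cv g ↔ ∃ n : ℕ, (g⁻¹) ^ n ≤ x ∧ x ≤ g ^ n := Iff.rfl

theorem Cv_mono [LinearOrder G] [MulLeftMono G] [MulRightMono G] {g g' : G} (h : g ≤ g') :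
    Cv g ≤ Cv g' := by
  rintro x ⟨n, h1, h2⟩
  exact ⟨n, le_trans (pow_le_pow_left' (inv_le_inv_iff.2 h) n) h1,
    le_trans h2 (pow_le_pow_left' h n)⟩

theorem conj_mono [LinearOrder G] [MulLeftMono G] [MulRightMono G] {x y : G} (k : G)
    (h : x ≤ y) : k * x * k⁻¹ ≤ k * y * k⁻¹ :=
  mul_le_mul_left (mul_le_mul_right h k) k⁻¹

end

end H64.BT
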