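import Pool.Agent.H64.BT.Ping

/-!
Some finitely generated subgroup has no free companion.
-/

set_option autoImplicit false

namespace H64.BT

open MulAction Function

section
variable {G Ω : Type*} [Group G] [MulAction G Ω]

open Classical in
/-- independent sequences give proper subgroups with infinite orbits -/
theorem seq_thm (ω : Ω) (x : G) (hx : x ≠ 1)
    (hext : ∀ s : Finset G, x ∉ Subgroup.closure (s : Set G) → ∀ Δ : Finset Ω,
      ∃ y : G, y • ω ∉ Δ ∧ x ∉ Subgroup.closure ((insert y s : Finset G) : Set G)) :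
    ∃ K : Subgroup G, K ≠ ⊤ ∧ (orbit K ω).Infinite := by
  let T := {s : Finset G // x ∉ Subgroup.closure (s : Set G)}
  have h0 : x ∉ Subgroup.closure ((∅ : Finset G) : Set G) := by
    rw [Finset.coe_empty, Subgroup.closure_empty, Subgroup.mem_bot]
    exact hx
  choose y hy hy' using fun s : T => hext s.1 s.2 (s.1.image fun g => g • ω)
  let S : ℕ → T := fun n => Nat.rec ⟨∅, h0⟩ (fun _ s => ⟨insert (y s) s.1, hy' s⟩) n
  have hS : ∀ n, (S (n + 1)).1 = insert (y (S n)) (S n).1 := fun n => rfl
  have hmono : Monotone fun n => Subgroup.closure ((S n).1 : Set G) := by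
    refine monotone_nat_of_le_succ fun n => ?_
    refine Subgroup.closure_mono ?_
    rw [hS]
    exact_mod_cast Finset.subset_insert _ _
  have hcard : ∀ n, n ≤ ((S n).1.image fun g => g • ω).card := by
    intro n
    induction n with
    | zero => exact Nat.zero_le _
    | succ n ih =>
      rw [hS, Finset.image_insert, Finset.card_insert_of_notMem (hy (S n))]
      omega
  refine ⟨⨆ n, Subgroup.closure ((S n).1 : Set G), ?_, ?_⟩
  · intro htop
    have h1 : x ∈ ⨆ n, Subgroup.closure ((S n).1 : Set G) := by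
      rw [htop]
      trivial
    rw [Subgroup.mem_iSup_of_directed hmono.directed_le] at h1
    obtain ⟨n, hn⟩ := h1
    exact (S n).2 hn
  · intro hfin
    have h1 := hcard (hfin.toFinset.card + 1)
    have h2 : ((S (hfin.toFinset.card + 1)).1.image fun g => g • ω) ⊆ hfin.toFinset := by
      intro δ hδ
      rw [Finset.mem_image] at hδ
      obtain ⟨g, hg, rfl⟩ := hδ
      rw [Set.Finite.mem_toFinset]
      have hg' : g ∈ ((S (hfin.toFinset.card + 1)).1 : Set G) := hg
      exact ⟨⟨g, Subgroup.mem_iSup_of_mem (hfin.toFinset.card + 1)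
        (Subgroup.subset_closure hg')⟩, rfl⟩
    have h3 := Finset.card_le_card h2
    omega

open Monoid in
/-- extension by a free companion -/
theorem free_ext (x b y : G) (s : Set G) (F : Subgroup G) (hs : s ⊆ F) (hx : x ∈ F) (hb : b ∈ F)
    (hy : Injective (Coprod.lift F.subtype (zpowersHom G y)))
    (hxs : x ∉ Subgroup.closure s) : x ∉ Subgroup.closure (insert (y * b) s) := by
  intro hc
  let L : Subgroup (Coprod F (Multiplicative ℤ)) := Subgroup.closure
    (insert (Coprod.inr (Multiplicative.ofAdd 1) * Coprod.inl ⟨b, hb⟩)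
      {w | ∃ g : F, (g : G) ∈ s ∧ w = Coprod.inl g})
  have h1 : Subgroup.closure (insert (y * b) s) ≤
      L.map (Coprod.lift F.subtype (zpowersHom G y)) := by
    rw [Subgroup.closure_le]
    rintro g (rfl | hg)
    · refine ⟨_, Subgroup.subset_closure (Or.inl rfl), ?_⟩
      simp
    · refine ⟨Coprod.inl ⟨g, hs hg⟩, Subgroup.subset_closure (Or.inr ⟨_, hg, rfl⟩), ?_⟩
      simp
  obtain ⟨w, hw, hw'⟩ := h1 hc
  have h2 : w = Coprod.inl ⟨x, hx⟩ := by
    apply hy
    rw [hw']
    simp
  have h3 : L ≤ (Subgroup.closure s).comap (Coprod.lift F.subtype (zpowersHom G b⁻¹)) := by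
    rw [Subgroup.closure_le]
    rintro w (rfl | ⟨g, hg, rfl⟩)
    · show Coprod.lift F.subtype (zpowersHom G b⁻¹) _ ∈ Subgroup.closure s
      have : Coprod.lift F.subtype (zpowersHom G b⁻¹)
          (Coprod.inr (Multiplicative.ofAdd 1) * Coprod.inl ⟨b, hb⟩) = 1 := by
        simp
      rw [this]
      exact one_mem _
    · show Coprod.lift F.subtype (zpowersHom G b⁻¹) _ ∈ Subgroup.closure s
      have : Coprod.lift F.subtype (zpowersHom G b⁻¹) (Coprod.inl g) = g := by
        simp
      rw [this]
      exact Subgroup.subset_closure hg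
  have h4 := h3 hw
  rw [Subgroup.mem_comap, h2] at h4
  apply hxs
  simpa using h4

open Monoid in
theorem no_free [IsPretransitive G Ω] [Infinite Ω]
    (bare : ∀ K : Subgroup G, K ≠ ⊤ → ∀ x : Ω, (orbit K x).Finite) :
    ∃ F : Subgroup G, F.FG ∧ ∀ y : G,
      ¬ Injective (Coprod.lift F.subtype (zpowersHom G y)) := by
  classical
  by_contra hcon
  push Not at hcon
  obtain ⟨ω⟩ : Nonempty Ω := inferInstance
  obtain ⟨x, hx⟩ : ∃ x : G, x ≠ 1 := by
    by_contra hc
    push Not at hc
    obtain ⟨a, b, hab⟩ := exists_pair_ne Ω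
    obtain ⟨g, hg⟩ := exists_smul_eq G a b
    rw [hc g, one_smul] at hg
    exact hab hg
  obtain ⟨K, hK, hK'⟩ := seq_thm ω x hx (by
    intro s hs Δ
    obtain ⟨E, hE⟩ := Infinite.exists_subset_card_eq Ω (Δ.card + 1)
    have hg : ∀ δ : Ω, ∃ g : G, g • ω = δ := fun δ => exists_smul_eq G ω δ
    choose g hg using hg
    obtain ⟨y, hy⟩ := hcon (Subgroup.closure ((insert x s ∪ E.image g : Finset G) : Set G))
      ⟨_, rfl⟩
    obtain ⟨δ, hδ, hδ'⟩ : ∃ δ ∈ E, y • δ ∉ Δ := by
      by_contra hc
      push Not at hc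
      have h1 : (E.image fun δ => y • δ) ⊆ Δ := by
        intro ε hε
        rw [Finset.mem_image] at hε
        obtain ⟨δ, hδ, rfl⟩ := hε
        exact hc δ hδ
      have h2 := Finset.card_le_card h1
      rw [Finset.card_image_of_injective _ (MulAction.injective y), hE] at h2
      omega
    refine ⟨y * g δ, ?_, ?_⟩
    · rw [mul_smul, hg]
      exact hδ'
    · rw [Finset.coe_insert]
      refine free_ext x (g δ) y (s : Set G) _ ?_ ?_ ?_ hy hs
      · intro z hz
        apply Subgroup.subset_closure
        have hz' : z ∈ s := hz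
        simp [hz']
      · apply Subgroup.subset_closure
        simp
      · apply Subgroup.subset_closure
        simp only [Finset.coe_union, Finset.coe_insert, Finset.coe_image]
        exact Or.inr ⟨δ, hδ, rfl⟩)
  exact hK' (bare K hK ω)

end

end H64.BT
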