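import Pool.Agent.H64.BT.Ping

/-!
Finitely generated subgroups which determine the orbits of the subgroups containing them.
-/

set_option autoImplicit false

namespace H64.BT

open MulAction Function

section
variable {G Ω : Type*} [Group G] [MulAction G Ω]

theorem gen (bare : ∀ K : Subgroup G, K ≠ ⊤ → ∀ x : Ω, (orbit K x).Finite) (S₀ E : Subgroup G)
    (hS₀ : S₀.FG) (hE : E.FG) (hES : ¬ E ≤ S₀) (ω : Ω) :
    ∃ S : Subgroup G, S.FG ∧ S₀ ≤ S ∧ ¬ E ≤ S ∧
      ∀ K : Subgroup G, S ≤ K → ¬ E ≤ K → orbit K ω = orbit S ω := by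
  classical
  by_contra hcon
  push Not at hcon
  let T := {S : Subgroup G // S.FG ∧ S₀ ≤ S ∧ ¬ E ≤ S}
  have hstep : ∀ S : T, ∃ S' : T, S.1 ≤ S'.1 ∧ ∃ g ∈ S'.1, g • ω ∉ orbit S.1 ω := by
    rintro ⟨S, h1, h2, h3⟩
    obtain ⟨K, hSK, hEK, hne⟩ := hcon S h1 h2 h3
    obtain ⟨δ, hδ, hδ'⟩ : ∃ δ ∈ orbit K ω, δ ∉ orbit S ω := by
      by_contra hc
      push Not at hc
      apply hne
      apply Set.Subset.antisymm hc
      rintro _ ⟨g, rfl⟩
      exact ⟨⟨g.1, hSK g.2⟩, rfl⟩
    obtain ⟨⟨k, hk⟩, rfl⟩ := hδ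
    refine ⟨⟨S ⊔ Subgroup.zpowers k, ?_, le_trans h2 le_sup_left, ?_⟩, le_sup_left, k,
      Subgroup.mem_sup_right (Subgroup.mem_zpowers k), hδ'⟩
    · refine Subgroup.FG.sup h1 ?_
      rw [Subgroup.zpowers_eq_closure]
      exact ⟨{k}, by simp⟩
    · intro hc
      apply hEK
      refine hc.trans (sup_le hSK ?_)
      rw [Subgroup.zpowers_le]
      exact hk
  choose nx hnx1 g hg hg' using hstep
  let S : ℕ → T := fun n => Nat.rec ⟨S₀, hS₀, le_refl _, hES⟩ (fun _ s => nx s) n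
  have hS : ∀ n, S (n + 1) = nx (S n) := fun n => rfl
  have hmono : Monotone fun n => (S n).1 := by
    refine monotone_nat_of_le_succ fun n => ?_
    rw [hS]
    exact hnx1 _
  have htop : (⨆ n, (S n).1) ≠ ⊤ := by
    intro hc
    obtain ⟨s, hs⟩ := hE
    have h1 : ∀ x ∈ s, ∃ n, x ∈ (S n).1 := by
      intro x _
      have : x ∈ ⨆ n, (S n).1 := by
        rw [hc]
        trivial
      rwa [Subgroup.mem_iSup_of_directed hmono.directed_le] at this
    choose! f hf using h1
    apply (S (s.sup f)).2.2.2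
    refine le_trans hs.ge ?_
    rw [Subgroup.closure_le]
    intro x hx
    exact hmono (Finset.le_sup (f := f) hx) (hf x hx)
  have hfin := bare _ htop ω
  have hmem : ∀ n, g (S n) • ω ∈ orbit (⨆ n, (S n).1 : Subgroup G) ω := by
    intro n
    refine ⟨⟨g (S n), Subgroup.mem_iSup_of_mem (n + 1) ?_⟩, rfl⟩
    rw [hS]
    exact hg _
  refine absurd hfin (Set.infinite_of_injective_forall_mem (f := fun n => g (S n) • ω) ?_ hmem)
  have key : ∀ m n, m < n → g (S m) • ω ≠ g (S n) • ω := by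
    intro m n hmn hc
    apply hg' (S n)
    rw [← hc]
    have h1 : g (S m) ∈ (S n).1 := by
      have h2 : g (S m) ∈ (S (m + 1)).1 := by
        rw [hS]
        exact hg _
      exact hmono (show m + 1 ≤ n from hmn) h2
    exact ⟨⟨_, h1⟩, rfl⟩
  intro m n hmn
  by_contra hne
  rcases lt_or_gt_of_ne hne with h | h
  · exact key m n h hmn
  · exact key n m h hmn.symm

theorem rel_stab (bare : ∀ K : Subgroup G, K ≠ ⊤ → ∀ x : Ω, (orbit K x).Finite)
    {K : Subgroup G} (hK : K ≠ ⊤) (x : Ω) : (stabilizer G x).relIndex K ≠ 0 := by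
  have e : (stabilizer G x).subgroupOf K = stabilizer K x := by
    ext a
    exact Iff.rfl
  unfold Subgroup.relIndex
  rw [e, index_stabilizer]
  have hne : (orbit K x).Nonempty := ⟨x, mem_orbit_self x⟩
  exact ((Set.ncard_pos (bare K hK x)).2 hne).ne'

/-- the setwise stabilizer -/
def St (B : Set Ω) : Subgroup G where
  carrier := {g | ∀ x, g • x ∈ B ↔ x ∈ B}
  one_mem' := fun x => by rw [one_smul]
  mul_mem' := by
    intro a b ha hb x
    rw [mul_smul, ha, hb]
  inv_mem' := by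
    intro a ha x
    rw [← ha, smul_inv_smul]

theorem mem_St {B : Set Ω} {g : G} : g ∈ (St B : Subgroup G) ↔ ∀ x, g • x ∈ B ↔ x ∈ B := Iff.rfl

theorem le_St (K : Subgroup G) (ω : Ω) : K ≤ St (orbit K ω) := by
  intro g hg x
  constructor
  · rintro ⟨k, hk⟩
    refine ⟨⟨g, hg⟩⁻¹ * k, ?_⟩
    show (g⁻¹ * k.1) • ω = x
    rw [mul_smul, inv_smul_eq_iff]
    exact hk
  · rintro ⟨k, rfl⟩
    exact ⟨⟨g, hg⟩ * k, mul_smul _ _ _⟩

theorem fg_case [IsPretransitive G Ω] [Infinite Ω]
    (bare : ∀ K : Subgroup G, K ≠ ⊤ → ∀ x : Ω, (orbit K x).Finite) (hG : Group.FG G)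
    (S₀ : Subgroup G) (hS₀ : S₀.FG) (hne : S₀ ≠ ⊤) (ω : Ω) :
    ∃ S Q : Subgroup G, S.FG ∧ S₀ ≤ S ∧ S ≤ Q ∧ IsCoatom Q ∧
      Subgroup.Commensurable Q (stabilizer G ω) ∧
      ∀ K : Subgroup G, S ≤ K → K ≠ ⊤ → K ≤ Q := by
  have hE : (⊤ : Subgroup G).FG := Group.fg_def.1 hG
  obtain ⟨S, h1, h2, h3, h4⟩ := gen bare S₀ ⊤ hS₀ hE (by rwa [top_le_iff]) ω
  have hSt : S ≠ ⊤ := by rwa [top_le_iff] at h3
  set B : Set Ω := orbit S ω with hB
  have hBfin : B.Finite := bare S hSt ω
  have hQ : (St B : Subgroup G) ≠ ⊤ := by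
    intro hc
    have h5 : B = Set.univ := by
      rw [Set.eq_univ_iff_forall]
      intro x
      obtain ⟨g, rfl⟩ := exists_smul_eq G ω x
      have hg : g ∈ (St B : Subgroup G) := by
        rw [hc]
        trivial
      exact (mem_St.1 hg ω).2 (mem_orbit_self ω)
    rw [h5] at hBfin
    exact Set.infinite_univ hBfin
  have hall : ∀ K : Subgroup G, S ≤ K → K ≠ ⊤ → K ≤ St B := by
    intro K hSK hK
    have h5 := h4 K hSK (by rwa [top_le_iff])
    rw [← h5]
    exact le_St K ω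
  refine ⟨S, St B, h1, h2, hall S le_rfl hSt, ⟨hQ, ?_⟩, ⟨?_, rel_stab bare hQ ω⟩, hall⟩
  · intro K hK
    by_contra hK'
    exact absurd (hall K ((hall S le_rfl hSt).trans hK.le) hK') (not_le_of_gt hK)
  · -- finitely many translates of `B` under the stabilizer
    have hst : stabilizer G ω ≠ ⊤ := by
      intro hc
      have hsub : Subsingleton Ω := by
        refine ⟨fun a b => ?_⟩
        have key : ∀ y : Ω, y = ω := by
          intro y
          obtain ⟨g, rfl⟩ := exists_smul_eq G ω y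
          have : g ∈ stabilizer G ω := by
            rw [hc]
            trivial
          exact this
        rw [key a, key b]
      exact not_finite Ω
    have := hBfin.to_subtype
    have h6 : (⨅ b : B, stabilizer G (b : Ω)).relIndex (stabilizer G ω) ≠ 0 :=
      Subgroup.relIndex_iInf_ne_zero fun b => rel_stab bare hst _
    have h7 : (⨅ b : B, stabilizer G (b : Ω)) ≤ St B := by
      intro g hg x
      have hfix : ∀ b ∈ B, g • b = b := by
        intro b hb
        exact (Subgroup.mem_iInf.1 hg) ⟨b, hb⟩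
      constructor
      · intro hx
        have h8 := hfix _ hx
        have h9 : g • x = x := smul_left_cancel g h8
        rwa [h9] at hx
      · intro hx
        rw [hfix x hx]
        exact hx
    intro hc
    exact h6 (Nat.eq_zero_of_zero_dvd (hc ▸ Subgroup.relIndex_dvd_of_le_left _ h7))

end

end H64.BT
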