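import Pool.Agent.H64.BT.BiOrd

/-!
Torsion-free barely transitive groups are not locally bi-orderable.
-/

set_option autoImplicit false

namespace H64.BT

open MulAction Function H47.BT Filter

section
variable {G Ω : Type*} [Group G] [MulAction G Ω]

/-- positive cones of bi-orders -/
structure Cone {G : Type*} [Group G] (P : G → Prop) : Prop where
  one : ¬ P 1
  mul : ∀ a b, P a → P b → P (a * b)
  conj : ∀ a k, P a → P (k * a * k⁻¹)
  tri : ∀ a, a = 1 ∨ P a ∨ P a⁻¹

open Classical in
/-- the order of a cone -/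
@[reducible] noncomputable def Cone.ord {P : G → Prop} (h : Cone P) : LinearOrder G where
  le a b := a = b ∨ P (a⁻¹ * b)
  lt a b := P (a⁻¹ * b)
  le_refl a := Or.inl rfl
  le_trans a b c := by
    rintro (rfl | h1) (rfl | h2)
    · exact Or.inl rfl
    · exact Or.inr h2
    · exact Or.inr h1
    · right
      have := h.mul _ _ h1 h2
      have e : a⁻¹ * b * (b⁻¹ * c) = a⁻¹ * c := by group
      rwa [e] at this
  lt_iff_le_not_ge a b := by
    constructor
    · intro h1
      refine ⟨Or.inr h1, ?_⟩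
      rintro (rfl | h2)
      · apply h.one
        rwa [inv_mul_cancel] at h1
      · apply h.one
        have := h.mul _ _ h1 h2
        have e : a⁻¹ * b * (b⁻¹ * a) = 1 := by group
        rwa [e] at this
    · rintro ⟨rfl | h1, h2⟩
      · exact absurd (Or.inl rfl) h2
      · exact h1
  le_antisymm a b := by
    rintro (h1 | h1) (h2 | h2)
    · exact h1
    · exact h1
    · exact h2.symm
    · exfalso
      apply h.one
      have := h.mul _ _ h1 h2
      have e : a⁻¹ * b * (b⁻¹ * a) = 1 := by group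
      rwa [e] at this
  le_total a b := by
    rcases h.tri (a⁻¹ * b) with h1 | h1 | h1
    · exact Or.inl (Or.inl (inv_mul_eq_one.1 h1))
    · exact Or.inl (Or.inr h1)
    · right
      right
      have e : (a⁻¹ * b)⁻¹ = b⁻¹ * a := by group
      rwa [e] at h1
  toDecidableLE := fun _ _ => Classical.dec _

theorem Cone.false {P : G → Prop} (h : Cone P) (hB : Bare G Ω) : False := by
  let _ := h.ord
  have h1 : MulLeftMono G := by
    refine ⟨?_⟩
    rintro m a b (rfl | hab)
    · exact Or.inl rfl
    · right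
      have e : (m * a)⁻¹ * (m * b) = a⁻¹ * b := by group
      rw [e]
      exact hab
  have h2 : MulRightMono G := by
    refine ⟨?_⟩
    rintro m a b (rfl | hab)
    · exact Or.inl rfl
    · right
      show P ((a * m)⁻¹ * (b * m))
      have e : (a * m)⁻¹ * (b * m) = m⁻¹ * (a⁻¹ * b) * m⁻¹⁻¹ := by group
      rw [e]
      exact h.conj _ _ hab
  exact no_order hB

theorem loc_order (hB : Bare G Ω) : ∃ F : Subgroup G, F.FG ∧
    ¬ ∃ _ : LinearOrder F, (∀ a b c : F, a ≤ b → c * a ≤ c * b) ∧
      (∀ a b c : F, a ≤ b → a * c ≤ b * c) := by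
  classical
  by_contra hcon
  push Not at hcon
  have hs : ∀ s : Finset G, ∃ _ : LinearOrder (Subgroup.closure (s : Set G)),
      (∀ a b c : Subgroup.closure (s : Set G), a ≤ b → c * a ≤ c * b) ∧
      (∀ a b c : Subgroup.closure (s : Set G), a ≤ b → a * c ≤ b * c) :=
    fun s => hcon _ ⟨s, rfl⟩
  choose o ho1 ho2 using hs
  let Q : Finset G → G → Prop := fun s a =>
    ∃ h : a ∈ Subgroup.closure (s : Set G), (o s).lt 1 ⟨a, h⟩
  have hQ1 : ∀ s : Finset G, ¬ Q s 1 := by
    rintro s ⟨h, h1⟩
    let _ := o s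
    exact lt_irrefl (1 : Subgroup.closure (s : Set G)) h1
  have hQmul : ∀ (s : Finset G) (a b : G), Q s a → Q s b → Q s (a * b) := by
    rintro s a b ⟨ha, h1⟩ ⟨hb, h2⟩
    refine ⟨mul_mem ha hb, ?_⟩
    let _ := o s
    have h1' : (1 : Subgroup.closure (s : Set G)) < ⟨a, ha⟩ := h1
    have h2' : (1 : Subgroup.closure (s : Set G)) < ⟨b, hb⟩ := h2
    have h3 : (⟨a, ha⟩ : Subgroup.closure (s : Set G)) * 1 ≤ ⟨a, ha⟩ * ⟨b, hb⟩ :=
      ho1 s _ _ _ h2'.le
    rw [mul_one] at h3
    exact lt_of_lt_of_le h1' h3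
  have hQconj : ∀ (s : Finset G) (a k : G), k ∈ Subgroup.closure (s : Set G) → Q s a → Q s (k * a * k⁻¹) := by
    rintro s a k hk ⟨ha, h1⟩
    refine ⟨mul_mem (mul_mem hk ha) (inv_mem hk), ?_⟩
    let _ := o s
    have h1' : (1 : Subgroup.closure (s : Set G)) < ⟨a, ha⟩ := h1
    have h2 := ho2 s _ _ (⟨k, hk⟩ : Subgroup.closure (s : Set G))⁻¹ (ho1 s _ _ ⟨k, hk⟩ h1'.le)
    rw [mul_one, mul_inv_cancel] at h2
    refine lt_of_le_of_ne h2 ?_
    intro h3
    apply h1'.ne
    have h4 := congrArg Subtype.val h3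
    have h5 : (1 : G) = k * a * k⁻¹ := h4
    apply Subtype.ext
    show (1 : G) = a
    have h6 : k⁻¹ * 1 * k = k⁻¹ * (k * a * k⁻¹) * k := by rw [← h5]
    have e1 : k⁻¹ * 1 * k = 1 := by group
    have e2 : k⁻¹ * (k * a * k⁻¹) * k = a := by group
    rwa [e1, e2] at h6
  have hQtri : ∀ (s : Finset G) (a : G), a ∈ Subgroup.closure (s : Set G) → a ≠ 1 → Q s a ∨ Q s a⁻¹ := by
    intro s a ha hne
    let _ := o s
    rcases lt_trichotomy (1 : Subgroup.closure (s : Set G)) ⟨a, ha⟩ with h | h | h
    · exact Or.inl ⟨ha, h⟩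
    · exfalso
      apply hne
      exact (congrArg Subtype.val h).symm
    · right
      refine ⟨inv_mem ha, ?_⟩
      have h2 := ho1 s _ _ (⟨a, ha⟩ : Subgroup.closure (s : Set G))⁻¹ h.le
      rw [inv_mul_cancel, mul_one] at h2
      refine lt_of_le_of_ne h2 ?_
      intro h3
      apply h.ne
      have h4 : (1 : G) = a⁻¹ := congrArg Subtype.val h3
      apply Subtype.ext
      exact inv_eq_one.1 h4.symm
  -- the limit
  let U : Ultrafilter (Finset G) := Ultrafilter.of atTop
  have hU : (U : Filter (Finset G)) ≤ atTop := Ultrafilter.of_le _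
  have hmem : ∀ a : G, ∀ᶠ s : Finset G in (U : Filter (Finset G)), a ∈ Subgroup.closure (s : Set G) := by
    intro a
    apply hU
    filter_upwards [eventually_ge_atTop ({a} : Finset G)] with s hs
    exact Subgroup.subset_closure (hs (Finset.mem_singleton_self a))
  have hcone : Cone (fun a : G => ∀ᶠ s in (U : Filter (Finset G)), Q s a) := by
    refine ⟨?_, ?_, ?_, ?_⟩
    · intro h
      obtain ⟨s, hs⟩ := h.exists
      exact hQ1 s hs
    · intro a b h1 h2
      filter_upwards [h1, h2] with s h3 h4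
      exact hQmul s a b h3 h4
    · intro a k h1
      filter_upwards [h1, hmem k] with s h3 h4
      exact hQconj s a k h4 h3
    · intro a
      by_cases hne : a = 1
      · exact Or.inl hne
      · right
        rw [← Ultrafilter.eventually_or]
        filter_upwards [hmem a] with s hs
        exact hQtri s a hs hne
  exact hcone.false hB

end

end H64.BT
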