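import Mathlib

/-!
Transitive groups on infinite sets: proper subgroups with infinite orbits found by ping-pong.
-/

set_option autoImplicit false

namespace H64.BT

universe u

open MulAction Function

section
variable {G Ω : Type*} [Group G] [MulAction G Ω]

theorem finite_of_index [IsPretransitive G Ω] (x : Ω) (h : (stabilizer G x).index ≠ 0) :
    Finite Ω := by
  have h1 : Finite (G ⧸ stabilizer G x) := by
    have : (stabilizer G x).FiniteIndex := ⟨h⟩
    infer_instance
  have h2 : Finite (orbit G x) := Finite.of_equiv _ (orbitEquivQuotientStabilizer G x).symm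
  have h3 : orbit G x = Set.univ := orbit_eq_univ G x
  have h4 : (Set.univ : Set Ω).Finite := by
    rw [← h3]
    exact h2
  exact Set.finite_univ_iff.1 h4

open scoped Pointwise in
/-- P. M. Neumann's lemma: finite sets can be moved off each other. -/
theorem move_off [IsPretransitive G Ω] [Infinite Ω] (T T' : Finset Ω) :
    ∃ u : G, ∀ δ ∈ T, u • δ ∉ T' := by
  classical
  by_contra hcon
  push Not at hcon
  have hx : ∀ p : Ω × Ω, ∃ g : G, g • p.1 = p.2 := fun p => exists_smul_eq G p.1 p.2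
  choose g hg using hx
  have hcov : ⋃ p ∈ (T ×ˢ T'), (g p) • ((stabilizer G p.1 : Subgroup G) : Set G) =
      Set.univ := by
    rw [Set.eq_univ_iff_forall]
    intro u
    obtain ⟨δ, hδ, hu⟩ := hcon u
    refine Set.mem_biUnion (x := (δ, u • δ)) ?_ ?_
    · simp [hδ, hu]
    · rw [Set.mem_smul_set_iff_inv_smul_mem]
      show (g (δ, u • δ))⁻¹ * u ∈ stabilizer G δ
      rw [mem_stabilizer_iff, mul_smul, inv_smul_eq_iff]
      exact (hg (δ, u • δ)).symm
  obtain ⟨p, _, hp⟩ := Subgroup.exists_finiteIndex_of_leftCoset_cover hcov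
  have := finite_of_index p.1 hp.index_ne_zero
  exact not_finite Ω

/-- a group all of whose proper subgroups have finite orbits on an infinite transitive set has no
proper subgroup of finite index -/
theorem no_fin_index [IsPretransitive G Ω] [Infinite Ω]
    (bare : ∀ K : Subgroup G, K ≠ ⊤ → ∀ x : Ω, (orbit K x).Finite) (N : Subgroup G)
    (hN : N.index ≠ 0) : N = ⊤ := by
  by_contra hne
  obtain ⟨x⟩ : Nonempty Ω := inferInstance
  have h1 : (stabilizer G x).relIndex N ≠ 0 := by
    have e : (stabilizer G x).subgroupOf N = stabilizer N x := by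
      ext a
      exact Iff.rfl
    unfold Subgroup.relIndex
    rw [e, index_stabilizer]
    have hne : (orbit N x).Nonempty := ⟨x, mem_orbit_self x⟩
    exact ((Set.ncard_pos (bare N (by assumption) x)).2 hne).ne'
  have h2 : N.relIndex ⊤ ≠ 0 := by rwa [Subgroup.relIndex_top_right]
  have h3 := Subgroup.relIndex_ne_zero_trans h1 h2
  rw [Subgroup.relIndex_top_right] at h3
  have := finite_of_index x h3
  exact not_finite Ω

end

section
variable {G : Type u} {Ω X : Type*} [Group G] [MulAction G Ω] [MulAction G X]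

/-- the elements which map the complement of `V` into `U` -/
def Sh (G : Type*) {X : Type*} [Group G] [MulAction G X] (U V : Set X) : Set G :=
  {g | ∀ x, x ∉ V → g • x ∈ U}

/-- the data for ping-pong: a family of sets -/
structure Data (G : Type*) {X : Type*} [Group G] [MulAction G X] (F : Set (Set X)) : Prop where
  ne : ∀ U ∈ F, U.Nonempty
  sh : ∀ U ∈ F, ∀ V ∈ F, (Sh G U V).Nonempty
  ref : ∃ V₁ ∈ F, ∃ V₂ ∈ F, ∀ U ∈ F, ∀ u : G, ∃ U₁ ∈ F, U₁ ⊆ U ∧
    ((∀ x ∈ U₁, u • x ∉ V₁) ∨ (∀ x ∈ U₁, u • x ∉ V₂))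
  seq : ∃ W : ℕ → Set X, (∀ n, W n ∈ F) ∧ Pairwise (Disjoint on W)

theorem Data.inf {F : Set (Set X)} (h : Data G F) [IsPretransitive G Ω] [Infinite Ω]
    {U V : Set X} (hU : U ∈ F) (hV : V ∈ F) (ω : Ω) :
    ((fun g : G => g • ω) '' Sh G U V).Infinite := by
  classical
  intro hfin
  obtain ⟨V₁, hV₁, V₂, hV₂, href⟩ := h.ref
  obtain ⟨s₁, hs₁⟩ := h.sh U hU V₁ hV₁
  obtain ⟨s₂, hs₂⟩ := h.sh U hU V₂ hV₂
  set T : Finset Ω := hfin.toFinset with hT
  obtain ⟨u, hu⟩ := move_off (G := G) T
    (T.image (fun δ => s₁⁻¹ • δ) ∪ T.image (fun δ => s₂⁻¹ • δ))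
  obtain ⟨U₁, hU₁, hsub, hcase⟩ := href U hU u
  obtain ⟨k, hk⟩ := h.sh U₁ hU₁ V hV
  have hkT : k • ω ∈ T := by
    rw [hT, Set.Finite.mem_toFinset]
    exact ⟨k, fun x hx => hsub (hk x hx), rfl⟩
  have hu' := hu _ hkT
  rw [Finset.mem_union, not_or] at hu'
  rcases hcase with hc | hc
  · have h1 : s₁ * u * k ∈ Sh G U V := by
      intro x hx
      rw [mul_smul, mul_smul]
      exact hs₁ _ (hc _ (hk x hx))
    apply hu'.1
    rw [Finset.mem_image]
    refine ⟨(s₁ * u * k) • ω, ?_, ?_⟩
    · rw [hT, Set.Finite.mem_toFinset]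
      exact ⟨_, h1, rfl⟩
    · rw [mul_smul, mul_smul, inv_smul_smul]
  · have h1 : s₂ * u * k ∈ Sh G U V := by
      intro x hx
      rw [mul_smul, mul_smul]
      exact hs₂ _ (hc _ (hk x hx))
    apply hu'.2
    rw [Finset.mem_image]
    refine ⟨(s₂ * u * k) • ω, ?_, ?_⟩
    · rw [hT, Set.Finite.mem_toFinset]
      exact ⟨_, h1, rfl⟩
    · rw [mul_smul, mul_smul, inv_smul_smul]

open scoped Pointwise in
/-- **The ping-pong theorem for transitive actions.** -/
theorem Data.main {F : Set (Set X)} (h : Data G F) [IsPretransitive G Ω] [Infinite Ω] (ω : Ω) :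
    ∃ K : Subgroup G, K ≠ ⊤ ∧ (orbit K ω).Infinite := by
  classical
  obtain ⟨W, hW, hWd⟩ := h.seq
  obtain ⟨f, hf, hf'⟩ := exists_seq_of_forall_finset_exists (α := ℕ × G)
    (fun p => p.2 ∈ Sh G (W (2 * p.1)) (W (2 * p.1 + 1)))
    (fun p q => p.1 < q.1 ∧ p.2 • ω ≠ q.2 • ω) (by
      intro s _
      have h1 := h.inf (hW (2 * (s.sup Prod.fst + 1))) (hW (2 * (s.sup Prod.fst + 1) + 1)) ω
      obtain ⟨δ, hδ, hδs⟩ := h1.exists_notMem_finset (s.image (fun p => p.2 • ω))
      obtain ⟨g, hg, rfl⟩ := hδ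
      refine ⟨(s.sup Prod.fst + 1, g), hg, fun x hx => ⟨?_, ?_⟩⟩
      · exact Nat.lt_succ_of_le (Finset.le_sup (f := Prod.fst) hx)
      · intro hc
        apply hδs
        rw [Finset.mem_image]
        exact ⟨x, hx, hc⟩)
  set y : ℕ → G := fun n => (f n).2 with hy
  have hmono : StrictMono (fun n => (f n).1) := by
    intro m n hmn
    exact (hf' m n hmn).1
  have hyne : ∀ m n, m ≠ n → y m • ω ≠ y n • ω := by
    intro m n hmn
    rcases lt_or_gt_of_ne hmn with h1 | h1
    · exact (hf' m n h1).2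
    · exact fun hc => (hf' n m h1).2 hc.symm
  let y' : ULift.{u} ℕ → G := fun n => y n.down
  have hdn : ∀ {m n : ULift.{u} ℕ}, m ≠ n → (f m.down).1 ≠ (f n.down).1 := by
    intro m n hmn hc
    exact hmn (ULift.ext _ _ (hmono.injective hc))
  have hinj : Function.Injective (FreeGroup.lift y') := by
    refine FreeGroup.injective_lift_of_ping_pong (a := y')
      (X := fun n => W (2 * (f n.down).1)) (Y := fun n => W (2 * (f n.down).1 + 1))
      (hXnonempty := fun n => h.ne _ (hW _)) (hXdisj := ?_) (hYdisj := ?_) (hXYdisj := ?_)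
      (hX := ?_) (hY := ?_)
    · intro m n hmn
      refine hWd ?_
      have := hdn hmn
      omega
    · intro m n hmn
      refine hWd ?_
      have := hdn hmn
      omega
    · intro m n
      refine hWd ?_
      omega
    · intro n x hx
      obtain ⟨x', hx', rfl⟩ := hx
      exact hf n.down x' hx'
    · intro n x hx
      obtain ⟨x', hx', rfl⟩ := hx
      show (y n.down)⁻¹ • x' ∈ W (2 * (f n.down).1 + 1)
      by_contra hcon
      have h1 := hf n.down _ hcon
      apply hx'
      have h2 : (f n.down).2 • (y n.down)⁻¹ • x' = x' := by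
        show y n.down • (y n.down)⁻¹ • x' = x'
        rw [smul_inv_smul]
      rwa [h2] at h1
  refine ⟨Subgroup.closure (Set.range fun k => y (k + 1)), ?_, ?_⟩
  · intro htop
    have h0 : y 0 ∈ Subgroup.closure (Set.range fun k => y (k + 1)) := by
      rw [htop]
      trivial
    have hmap : Subgroup.closure (Set.range fun k => y (k + 1)) =
        (Subgroup.closure (Set.range fun k : ℕ => FreeGroup.of (ULift.up.{u} (k + 1)))).map
          (FreeGroup.lift y') := by
      rw [MonoidHom.map_closure, ← Set.range_comp]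
      congr 2
      ext k
      simp [y']
    rw [hmap, Subgroup.mem_map] at h0
    obtain ⟨w, hw, hw'⟩ := h0
    have h1 : w = FreeGroup.of (ULift.up.{u} 0) := by
      apply hinj
      rw [hw', FreeGroup.lift_apply_of]
    let r : FreeGroup (ULift.{u} ℕ) →* Multiplicative ℤ :=
      FreeGroup.lift fun k => if k.down = 0 then Multiplicative.ofAdd 1 else 1
    have h2 : Subgroup.closure (Set.range fun k : ℕ => FreeGroup.of (ULift.up.{u} (k + 1))) ≤
        r.ker := by
      rw [Subgroup.closure_le]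
      rintro _ ⟨k, rfl⟩
      show r (FreeGroup.of (ULift.up (k + 1))) = 1
      simp [r]
    have h3 : r w = 1 := h2 hw
    rw [h1] at h3
    have h4 : r (FreeGroup.of (ULift.up.{u} 0)) = Multiplicative.ofAdd 1 := by
      simp [r]
    rw [h4] at h3
    exact absurd h3 (by decide)
  · refine Set.infinite_of_injective_forall_mem (f := fun k : ℕ => y (k + 1) • ω) ?_ ?_
    · intro m n hmn
      by_contra hne
      exact hyne (m + 1) (n + 1) (by omega) hmn
    · intro k
      exact ⟨⟨y (k + 1), Subgroup.subset_closure ⟨k, rfl⟩⟩, rfl⟩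

/-- an extremely proximal action on an infinite Hausdorff space gives ping-pong data -/
theorem ep_data [TopologicalSpace X] [T2Space X] [Infinite X] [ContinuousConstSMul G X]
    (hep : ∀ C U : Set X, IsClosed C → C ≠ Set.univ → IsOpen U → U.Nonempty →
      ∃ g : G, ∀ x ∈ C, g • x ∈ U) : Data G {U : Set X | IsOpen U ∧ U.Nonempty} := by
  obtain ⟨W, hWi, hWo, hWd⟩ := exists_seq_infinite_isOpen_pairwise_disjoint X
  refine ⟨fun U hU => hU.2, ?_, ⟨W 0, ⟨hWo 0, (hWi 0).nonempty⟩, W 1, ⟨hWo 1, (hWi 1).nonempty⟩,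
    ?_⟩, ⟨W, fun n => ⟨hWo n, (hWi n).nonempty⟩, hWd⟩⟩
  · intro U hU V hV
    obtain ⟨g, hg⟩ := hep Vᶜ U hV.1.isClosed_compl (by
      intro hc
      rw [Set.compl_univ_iff] at hc
      exact hV.2.ne_empty hc) hU.1 hU.2
    exact ⟨g, fun x hx => hg x hx⟩
  · intro U hU u
    by_cases hc : (U ∩ {x | u • x ∈ W 0}).Nonempty
    · refine ⟨_, ⟨hU.1.inter ((hWo 0).preimage (continuous_const_smul u)), hc⟩,
        Set.inter_subset_left, Or.inr ?_⟩
      intro x hx hx1
      exact Set.disjoint_left.1 (hWd (show (0 : ℕ) ≠ 1 by decide)) hx.2 hx1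
    · refine ⟨U, hU, le_refl _, Or.inl ?_⟩
      intro x hx hx0
      exact hc ⟨x, hx, hx0⟩

end

end H64.BT
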