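import Pool.Agent.H64.BT.Ping

/-!
A ping-pong lemma in which the attracting sets need not be disjoint.
-/

set_option autoImplicit false

namespace H64.BT

open MulAction

section
variable {G X : Type*} [Group G] [MulAction G X]

/-- the letter `y ^ b` -/
def ltr {G : Type*} [Group G] (g : G) (b : Bool) : G := if b then g else g⁻¹

theorem word_act (y : ℕ → G) (A R : ℕ → Bool → Set X)
    (h1 : ∀ i b x, x ∉ R i b → ltr (y i) b • x ∈ A i b)
    (h2 : ∀ i j b c, (i = j → b = c) → ∀ x ∈ A i b, x ∉ R j c)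
    (i : ℕ) (b : Bool) (L : List (ℕ × Bool)) (hL : FreeGroup.IsReduced ((i, b) :: L)) :
    ∃ j c, ∀ x, x ∉ R j c →
      (List.prod (((i, b) :: L).map fun p => cond p.2 (y p.1) (y p.1)⁻¹)) • x ∈ A i b := by
  induction L generalizing i b with
  | nil =>
    refine ⟨i, b, fun x hx => ?_⟩
    have := h1 i b x hx
    cases b <;> simpa [ltr] using this
  | cons p L ih =>
    obtain ⟨i', b'⟩ := p
    have hL' : FreeGroup.IsReduced ((i', b') :: L) := by
      unfold FreeGroup.IsReduced at hL ⊢
      exact (List.isChain_cons_cons.1 hL).2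
    have hrel : i = i' → b = b' := by
      unfold FreeGroup.IsReduced at hL
      exact (List.isChain_cons_cons.1 hL).1
    obtain ⟨j, c, hjc⟩ := ih i' b' hL'
    refine ⟨j, c, fun x hx => ?_⟩
    have h3 := hjc x hx
    have h4 := h1 i b _ (h2 i' i b' b (fun h => (hrel h.symm).symm) _ h3)
    rw [List.map_cons, List.prod_cons, mul_smul]
    cases b <;> simpa [ltr] using h4

theorem pp2 (y : ℕ → G) (A R : ℕ → Bool → Set X)
    (h1 : ∀ i b x, x ∉ R i b → ltr (y i) b • x ∈ A i b)
    (h2 : ∀ i j b c, (i = j → b = c) → ∀ x ∈ A i b, x ∉ R j c)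
    (h3 : ∀ i j b c, ∃ x, x ∉ R i b ∧ x ∉ A j c) : Function.Injective (FreeGroup.lift y) := by
  rw [injective_iff_map_eq_one]
  intro w hw
  by_contra hne
  have hword : w.toWord ≠ [] := by
    intro h
    exact hne (FreeGroup.toWord_eq_nil_iff.1 h)
  obtain ⟨⟨i, b⟩, L, hL⟩ := List.exists_cons_of_ne_nil hword
  have hred : FreeGroup.IsReduced ((i, b) :: L) := by
    rw [← hL]
    exact FreeGroup.isReduced_toWord
  obtain ⟨j, c, hjc⟩ := word_act y A R h1 h2 i b L hred
  obtain ⟨x, hx1, hx2⟩ := h3 j i c b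
  have h4 := hjc x hx1
  apply hx2
  have h5 : FreeGroup.lift y w =
      List.prod (((i, b) :: L).map fun p => cond p.2 (y p.1) (y p.1)⁻¹) := by
    conv_lhs => rw [← FreeGroup.mk_toWord (x := w), hL]
    exact FreeGroup.lift_mk
  rw [← h5, hw, one_smul] at h4
  exact h4

end

section
variable {G Ω : Type*} [Group G] [MulAction G Ω]

/-- freeness gives a proper subgroup with an infinite orbit -/
theorem free_orbit (y : ℕ → G) (hinj : Function.Injective (FreeGroup.lift y)) (ω : Ω)
    (hyne : ∀ m n, m ≠ n → y m • ω ≠ y n • ω) :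
    ∃ K : Subgroup G, K ≠ ⊤ ∧ (orbit K ω).Infinite := by
  refine ⟨Subgroup.closure (Set.range fun k => y (k + 1)), ?_, ?_⟩
  · intro htop
    have h0 : y 0 ∈ Subgroup.closure (Set.range fun k => y (k + 1)) := by
      rw [htop]
      trivial
    have hmap : Subgroup.closure (Set.range fun k => y (k + 1)) =
        (Subgroup.closure (Set.range fun k : ℕ => FreeGroup.of (k + 1))).map
          (FreeGroup.lift y) := by
      rw [MonoidHom.map_closure, ← Set.range_comp]
      congr 2
      ext k
      simp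
    rw [hmap, Subgroup.mem_map] at h0
    obtain ⟨w, hw, hw'⟩ := h0
    have h1 : w = FreeGroup.of 0 := by
      apply hinj
      rw [hw', FreeGroup.lift_apply_of]
    let r : FreeGroup ℕ →* Multiplicative ℤ :=
      FreeGroup.lift fun k => if k = 0 then Multiplicative.ofAdd 1 else 1
    have h2 : Subgroup.closure (Set.range fun k : ℕ => FreeGroup.of (k + 1)) ≤ r.ker := by
      rw [Subgroup.closure_le]
      rintro _ ⟨k, rfl⟩
      show r (FreeGroup.of (k + 1)) = 1
      simp [r]
    have h3 : r w = 1 := h2 hw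
    rw [h1] at h3
    have h4 : r (FreeGroup.of 0) = Multiplicative.ofAdd 1 := by
      simp [r]
    rw [h4] at h3
    exact absurd h3 (by decide)
  · refine Set.infinite_of_injective_forall_mem (f := fun k : ℕ => y (k + 1) • ω) ?_ ?_
    · intro m n hmn
      by_contra hne
      exact hyne (m + 1) (n + 1) (by omega) hmn
    · intro k
      exact ⟨⟨y (k + 1), Subgroup.subset_closure ⟨k, rfl⟩⟩, rfl⟩

open Classical in
/-- injective choice from infinite sets of translates -/
theorem choose_inj (S : ℕ → Set G) (ω : Ω)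
    (hS : ∀ n, ((fun g : G => g • ω) '' S n).Infinite) :
    ∃ (ν : ℕ → ℕ) (y : ℕ → G), StrictMono ν ∧ (∀ n, y n ∈ S (ν n)) ∧
      ∀ m n, m ≠ n → y m • ω ≠ y n • ω := by
  obtain ⟨f, hf, hf'⟩ := exists_seq_of_forall_finset_exists (α := ℕ × G)
    (fun p => p.2 ∈ S p.1)
    (fun p q => p.1 < q.1 ∧ p.2 • ω ≠ q.2 • ω) (by
      intro s _
      obtain ⟨δ, hδ, hδs⟩ := (hS (s.sup Prod.fst + 1)).exists_notMem_finset
        (s.image (fun p => p.2 • ω))
      obtain ⟨g, hg, rfl⟩ := hδ
      refine ⟨(s.sup Prod.fst + 1, g), hg, fun x hx => ⟨?_, ?_⟩⟩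
      · exact Nat.lt_succ_of_le (Finset.le_sup (f := Prod.fst) hx)
      · intro hc
        apply hδs
        rw [Finset.mem_image]
        exact ⟨x, hx, hc⟩)
  refine ⟨fun n => (f n).1, fun n => (f n).2, fun m n hmn => (hf' m n hmn).1, hf, ?_⟩
  intro m n hmn
  rcases lt_or_gt_of_ne hmn with h | h
  · exact (hf' m n h).2
  · exact fun hc => (hf' n m h).2 hc.symm

end

end H64.BT
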