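import Pool.Agent.H64.BT.Am

/-!
Amalgamated products are not barely transitive.
-/

set_option autoImplicit false

namespace H64.BT

open MulAction Function Monoid Monoid.PushoutI

section
variable {ι H : Type*} {K : ι → Type*} [∀ i, Group (K i)] [Group H] {φ : ∀ i, H →* K i}

open Classical in
theorem push_pp [Nonempty ι] (d : NormalWord.Transversal φ) :
    Pp (X := NormalWord d) (fun i => (of (φ := φ) i).range) (base φ).range
      (fun i => {w : NormalWord d | w.fstIdx = some i}) where
  le := by
    rintro i _ ⟨h, rfl⟩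
    exact ⟨φ i h, of_apply_eq_base φ i h⟩
  gen := by
    rw [eq_top_iff]
    intro x _
    induction x using Monoid.PushoutI.induction_on with
    | of i g => exact Subgroup.mem_iSup_of_mem i ⟨g, rfl⟩
    | base h =>
      obtain ⟨i⟩ : Nonempty ι := inferInstance
      exact Subgroup.mem_iSup_of_mem i ⟨φ i h, of_apply_eq_base φ i h⟩
    | mul x y hx hy => exact mul_mem (hx trivial) (hy trivial)
  disj := by
    intro i j hij w hw hw'
    have h1 : w.fstIdx = some i := hw
    have h2 : w.fstIdx = some j := hw'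
    rw [h1] at h2
    exact hij (Option.some.inj h2)
  ping := by
    rintro i _ ⟨g, rfl⟩ hC w hw
    have hg : g ∉ (φ i).range := by
      rintro ⟨h, rfl⟩
      exact hC ⟨h, (of_apply_eq_base φ i h).symm⟩
    show (of (φ := φ) i g • w).fstIdx = some i
    rw [← NormalWord.cons_eq_smul g w hw hg]
    simp [NormalWord.cons]

/-- the sign homomorphism which is `-1` exactly on the elements of `K i` outside the image of `H`,
if these elements form one coset -/
noncomputable def sgn [DecidableEq ι] (i : ι)
    (hi : ∀ a d : K i, a ∉ (φ i).range → d ∉ (φ i).range → a⁻¹ * d ∈ (φ i).range) (k : ι) :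
    K k →* ℤˣ :=
  open Classical in
  { toFun := fun g => if k = i ∧ g ∉ (φ k).range then -1 else 1
    map_one' := by
      rw [if_neg]
      rintro ⟨_, h⟩
      exact h (one_mem _)
    map_mul' := by
      intro g h
      by_cases hk : k = i
      · subst hk
        by_cases hg : g ∈ (φ k).range
        · by_cases hh : h ∈ (φ k).range
          · rw [if_neg (fun hc => hc.2 (mul_mem hg hh)), if_neg (fun hc => hc.2 hg),
              if_neg (fun hc => hc.2 hh), one_mul]
          · rw [if_pos ⟨rfl, fun hc => hh ((Subgroup.mul_mem_cancel_left _ hg).1 hc)⟩,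
              if_neg (fun hc => hc.2 hg), if_pos ⟨rfl, hh⟩, one_mul]
        · by_cases hh : h ∈ (φ k).range
          · rw [if_pos ⟨rfl, fun hc => hg ((Subgroup.mul_mem_cancel_right _ hh).1 hc)⟩,
              if_pos ⟨rfl, hg⟩, if_neg (fun hc => hc.2 hh), mul_one]
          · have h1 : g * h ∈ (φ k).range := by
              have := hi g⁻¹ h (fun hc => hg ((Subgroup.inv_mem_iff _).1 hc)) hh
              rwa [inv_inv] at this
            rw [if_neg (fun hc => hc.2 h1), if_pos ⟨rfl, hg⟩, if_pos ⟨rfl, hh⟩]
            simp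
      · rw [if_neg (fun hc => hk hc.1), if_neg (fun hc => hk hc.1), if_neg (fun hc => hk hc.1),
          one_mul] }

theorem amalgam {G Ω : Type*} [Group G] [MulAction G Ω] [IsPretransitive G Ω] [Infinite Ω]
    (bare : ∀ K : Subgroup G, K ≠ ⊤ → ∀ x : Ω, (orbit K x).Finite)
    (hφ : ∀ i, Injective (φ i)) {i j : ι} (hij : i ≠ j) (hi : ¬ Surjective (φ i))
    (hj : ¬ Surjective (φ j)) (e : G ≃* PushoutI φ) : False := by
  classical
  -- the pushout acts on the set
  let act : MulAction (PushoutI φ) Ω := MulAction.compHom Ω e.symm.toMonoidHom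
  have hsm : ∀ (g : PushoutI φ) (x : Ω), g • x = e.symm g • x := fun _ _ => rfl
  have htr : IsPretransitive (PushoutI φ) Ω := by
    refine ⟨fun x y => ?_⟩
    obtain ⟨g, hg⟩ := exists_smul_eq G x y
    refine ⟨e g, ?_⟩
    rw [hsm, e.symm_apply_apply, hg]
  have bare' : ∀ N : Subgroup (PushoutI φ), N ≠ ⊤ → ∀ x : Ω, (orbit N x).Finite := by
    intro N hN x
    have h1 : N.comap e.toMonoidHom ≠ ⊤ := by
      intro hc
      apply hN
      rw [eq_top_iff]
      intro g _
      have h2 : e.symm g ∈ N.comap e.toMonoidHom := by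
        rw [hc]
        trivial
      have h3 : e (e.symm g) ∈ N := h2
      rwa [e.apply_symm_apply] at h3
    refine (bare _ h1 x).subset ?_
    rintro _ ⟨⟨g, hg⟩, rfl⟩
    refine ⟨⟨e.symm g, ?_⟩, rfl⟩
    show e (e.symm g) ∈ N
    rwa [e.apply_symm_apply]
  obtain ⟨x⟩ : Nonempty Ω := inferInstance
  have : Nonempty ι := ⟨i⟩
  obtain ⟨t⟩ := NormalWord.transversal_nonempty φ hφ
  have hpp := push_pp t
  obtain ⟨a, ha⟩ : ∃ a, a ∉ (φ i).range := by
    by_contra hc
    push Not at hc
    exact hi hc
  obtain ⟨b, hb⟩ : ∃ b, b ∉ (φ j).range := by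
    by_contra hc
    push Not at hc
    exact hj hc
  have hout : ∀ k : ι, ∀ g : K k, g ∉ (φ k).range →
      of (φ := φ) k g ∉ (base φ).range := by
    rintro k g hg ⟨h, hh⟩
    rw [← of_apply_eq_base φ k h] at hh
    exact hg ⟨h, of_injective hφ k hh⟩
  have hfin : ∀ (S : Set (NormalWord t)), Data (PushoutI φ) (Fam (PushoutI φ) S) → False := by
    intro S hS
    obtain ⟨N, hN, hN'⟩ := hS.main x
    exact hN' (bare' N hN x)
  by_cases hci : ∀ a d : K i, a ∉ (φ i).range → d ∉ (φ i).range → a⁻¹ * d ∈ (φ i).range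
  · -- the image of `H` has index two in `K i`: there is a subgroup of index two
    let f : PushoutI φ →* ℤˣ := lift (sgn i hci) 1 (by
      intro k
      ext h
      show ((sgn i hci k) (φ k h) : ℤ) = 1
      have : sgn i hci k (φ k h) = 1 := by
        show (if k = i ∧ φ k h ∉ (φ k).range then (-1 : ℤˣ) else 1) = 1
        rw [if_neg (fun hc => hc.2 ⟨h, rfl⟩)]
      rw [this]
      rfl)
    have h1 : f.ker = ⊤ := by
      refine no_fin_index bare' f.ker ?_
      have : f.ker.FiniteIndex := by infer_instance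
      exact this.index_ne_zero
    have h2 : of i a ∈ f.ker := by
      rw [h1]
      trivial
    have h3 : f (of i a) = -1 := by
      show lift (sgn i hci) 1 _ (of i a) = -1
      rw [lift_of]
      show (if i = i ∧ a ∉ (φ i).range then (-1 : ℤˣ) else 1) = -1
      rw [if_pos ⟨rfl, ha⟩]
    rw [MonoidHom.mem_ker, h3] at h2
    exact absurd h2 (by decide)
  · push Not at hci
    obtain ⟨a', d, ha', hd, had⟩ := hci
    refine hfin _ (pp_data hpp (i := i) (k := i) (j := j) (a := of i a') (b := of j b)
      (d := of i d) hij hij ⟨_, rfl⟩ (hout _ _ ha') ⟨_, rfl⟩ (hout _ _ hb) ⟨_, rfl⟩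
      (hout _ _ hd) (Or.inr ?_))
    rw [← map_inv, ← map_mul]
    exact hout _ _ had

end

end H64.BT
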