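import Mathlib

/-!
Linear groups without proper subgroups of finite index are irreducible in the Zariski topology;
finitely many generic conditions can be satisfied simultaneously.
-/

set_option autoImplicit false

namespace H64.BT

open MvPolynomial

section
variable {G k : Type*} [Group G] [Field k] {n : ℕ} (ρ : G →* Matrix (Fin n) (Fin n) k)

/-- index type of the coordinates -/
abbrev Sg (n : ℕ) : Type := (Fin n × Fin n) ⊕ (Fin n × Fin n)

/-- the entries of `ρ u` and of `ρ u⁻¹` -/
def crd (u : G) : Sg n → k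
  | Sum.inl p => ρ u p.1 p.2
  | Sum.inr p => ρ u⁻¹ p.1 p.2

/-- evaluation at `u` -/
noncomputable def evl (u : G) : MvPolynomial (Sg n) k →+* k := eval (crd ρ u)

/-- the point of the spectrum -/
noncomputable def pt (u : G) : PrimeSpectrum (MvPolynomial (Sg n) k) :=
  ⟨RingHom.ker (evl ρ u), RingHom.ker_isPrime _⟩

/-- the Zariski topology on the group -/
@[reducible] noncomputable def Zt : TopologicalSpace G :=
  TopologicalSpace.induced (pt ρ) inferInstance

/-- the substitution belonging to a left translation -/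
noncomputable def lt (g : G) : MvPolynomial (Sg n) k →+* MvPolynomial (Sg n) k :=
  eval₂Hom C (fun s => match s with
    | Sum.inl p => ∑ l, C (ρ g p.1 l) * X (Sum.inl (l, p.2))
    | Sum.inr p => ∑ l, X (Sum.inr (p.1, l)) * C (ρ g⁻¹ l p.2))

theorem evl_lt (g u : G) (f : MvPolynomial (Sg n) k) :
    evl ρ u (lt ρ g f) = evl ρ (g * u) f := by
  have h : (evl ρ u).comp (lt ρ g) = evl ρ (g * u) := by
    refine MvPolynomial.ringHom_ext ?_ ?_
    · intro a
      simp [evl, lt]
    · rintro (⟨i, j⟩ | ⟨i, j⟩)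
      · simp [evl, lt, crd, Matrix.mul_apply]
      · simp [evl, lt, crd, Matrix.mul_apply]
  exact congrArg (fun r => r f) h

theorem cont_left (g : G) : @Continuous G G (Zt ρ) (Zt ρ) (fun u => g * u) := by
  letI := Zt ρ
  rw [continuous_induced_rng]
  have h : pt ρ ∘ (fun u => g * u) = (PrimeSpectrum.comap (lt ρ g)) ∘ pt ρ := by
    funext u
    apply PrimeSpectrum.ext
    ext f
    show f ∈ RingHom.ker (evl ρ (g * u)) ↔ lt ρ g f ∈ RingHom.ker (evl ρ u)
    rw [RingHom.mem_ker, RingHom.mem_ker, evl_lt]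
  rw [h]
  exact (PrimeSpectrum.continuous_comap _).comp continuous_induced_dom

open scoped Pointwise in
theorem preirr (hfi : ∀ N : Subgroup G, N.index ≠ 0 → N = ⊤) :
    @IsPreirreducible G (Zt ρ) Set.univ := by
  letI := Zt ρ
  have hN : TopologicalSpace.NoetherianSpace G :=
    Topology.IsInducing.noetherianSpace (i := pt ρ) ⟨rfl⟩
  have hfin : (irreducibleComponents G).Finite :=
    TopologicalSpace.NoetherianSpace.finite_irreducibleComponents
  have hC : irreducibleComponent (1 : G) ∈ irreducibleComponents G :=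
    irreducibleComponent_mem_irreducibleComponents 1
  set C := irreducibleComponent (1 : G) with hCdef
  have himg : ∀ (g : G) (D : Set G), IsIrreducible D → IsIrreducible (g • D) := by
    intro g D hD
    exact hD.image (fun u => g * u) (cont_left ρ g).continuousOn
  have hmem : ∀ g : G, g • C ∈ irreducibleComponents G := by
    intro g
    refine ⟨himg g C hC.1, ?_⟩
    intro D hD hle
    have h1 : C ≤ g⁻¹ • D := by
      have : g⁻¹ • (g • C) ⊆ g⁻¹ • D := Set.smul_set_mono hle
      rwa [inv_smul_smul] at this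
    have h2 := hC.2 (himg g⁻¹ D hD) h1
    have h3 : g • (g⁻¹ • D) ⊆ g • C := Set.smul_set_mono h2
    rwa [smul_inv_smul] at h3
  have horb : (MulAction.orbit G C).Finite := by
    refine hfin.subset ?_
    rintro _ ⟨g, rfl⟩
    exact hmem g
  have hst : MulAction.stabilizer G C = ⊤ := by
    apply hfi
    rw [MulAction.index_stabilizer]
    exact ((Set.ncard_pos horb).2 ⟨C, MulAction.mem_orbit_self C⟩).ne'
  have huniv : C = Set.univ := by
    rw [Set.eq_univ_iff_forall]
    intro g
    have h1 : g • C = C := by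
      have : g ∈ MulAction.stabilizer G C := by
        rw [hst]
        trivial
      exact this
    rw [← h1]
    exact ⟨1, mem_irreducibleComponent, mul_one g⟩
  have h2 := hC.1.2
  rwa [huniv] at h2

/-- functions given by polynomials in the coordinates -/
def Pol (F : G → k) : Prop := ∃ f : MvPolynomial (Sg n) k, ∀ u, F u = evl ρ u f

variable {ρ}

theorem Pol.open {F : G → k} (h : Pol ρ F) : @IsOpen G (Zt ρ) {u | F u ≠ 0} := by
  letI := Zt ρ
  obtain ⟨f, hf⟩ := h
  refine ⟨PrimeSpectrum.basicOpen f, (PrimeSpectrum.basicOpen f).2, ?_⟩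
  ext u
  show ¬ (f ∈ RingHom.ker (evl ρ u)) ↔ F u ≠ 0
  rw [RingHom.mem_ker, hf]

theorem Pol.mul {F H : G → k} (h : Pol ρ F) (h' : Pol ρ H) : Pol ρ (fun u => F u * H u) := by
  obtain ⟨f, hf⟩ := h
  obtain ⟨e, he⟩ := h'
  refine ⟨f * e, fun u => ?_⟩
  show F u * H u = _
  rw [hf, he, map_mul]

theorem Pol.one : Pol ρ (fun _ => (1 : k)) := ⟨1, fun _ => (map_one _).symm⟩

theorem two_gen (hfi : ∀ N : Subgroup G, N.index ≠ 0 → N = ⊤) {F H : G → k} (h : Pol ρ F)
    (h' : Pol ρ H) (hF : ∃ u, F u ≠ 0) (hH : ∃ u, H u ≠ 0) : ∃ u, F u ≠ 0 ∧ H u ≠ 0 := by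
  letI := Zt ρ
  have h1 := preirr ρ hfi {u | F u ≠ 0} {u | H u ≠ 0} h.open h'.open
    (by obtain ⟨u, hu⟩ := hF; exact ⟨u, trivial, hu⟩)
    (by obtain ⟨u, hu⟩ := hH; exact ⟨u, trivial, hu⟩)
  obtain ⟨u, _, hu⟩ := h1
  exact ⟨u, hu⟩

theorem fin_gen' (hfi : ∀ N : Subgroup G, N.index ≠ 0 → N = ⊤) {ι : Type*} (s : Finset ι)
    (F : ι → G → k) (hP : ∀ i ∈ s, Pol ρ (F i)) (hF : ∀ i ∈ s, ∃ u, F i u ≠ 0) :
    ∃ u, ∀ i ∈ s, F i u ≠ 0 := by
  classical
  have key : Pol ρ (fun u => ∏ i ∈ s, F i u) ∧ ∃ u, ∏ i ∈ s, F i u ≠ 0 := by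
    induction s using Finset.induction_on with
    | empty =>
      refine ⟨?_, 1, by simp⟩
      simpa using Pol.one
    | insert a s ha ih =>
      obtain ⟨h1, h2⟩ := ih (fun i hi => hP i (Finset.mem_insert_of_mem hi))
        (fun i hi => hF i (Finset.mem_insert_of_mem hi))
      have h3 := hP a (Finset.mem_insert_self a s)
      have h4 := hF a (Finset.mem_insert_self a s)
      simp only [Finset.prod_insert ha]
      refine ⟨h3.mul h1, ?_⟩
      obtain ⟨u, hu1, hu2⟩ := two_gen hfi h3 h1 h4 h2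
      exact ⟨u, mul_ne_zero hu1 hu2⟩
  obtain ⟨_, u, hu⟩ := key
  exact ⟨u, fun i hi => (Finset.prod_ne_zero_iff.1 hu) i hi⟩

theorem pol_entry (b : Bool) (T T' : Matrix (Fin n) (Fin n) k) (i j : Fin n) :
    Pol ρ (fun u => (T * ρ (if b then u else u⁻¹) * T') i j) := by
  cases b with
  | true =>
    refine ⟨∑ l, (∑ m, C (T i m) * X (Sum.inl (m, l))) * C (T' l j), fun u => ?_⟩
    simp [evl, crd, Matrix.mul_apply]
  | false =>
    refine ⟨∑ l, (∑ m, C (T i m) * X (Sum.inr (m, l))) * C (T' l j), fun u => ?_⟩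
    simp [evl, crd, Matrix.mul_apply]

/-- irreducible matrix representations -/
def Irr (ρ : G →* Matrix (Fin n) (Fin n) k) : Prop :=
  ∀ W : Submodule k (Fin n → k), (∀ g, ∀ x ∈ W, (ρ g).mulVec x ∈ W) → W = ⊥ ∨ W = ⊤

theorem Irr.one (h : Irr ρ) {T T' : Matrix (Fin n) (Fin n) k} (hT : T ≠ 0) (hT' : T' ≠ 0) :
    ∃ u, T * ρ u * T' ≠ 0 := by
  by_contra hcon
  push Not at hcon
  let W : Submodule k (Fin n → k) :=
    Submodule.span k {y | ∃ (u : G) (x : Fin n → k), y = (ρ u).mulVec (T'.mulVec x)}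
  rcases h W (by
    intro g x hx
    induction hx using Submodule.span_induction with
    | mem y hy =>
      obtain ⟨u, x, rfl⟩ := hy
      apply Submodule.subset_span
      refine ⟨g * u, x, ?_⟩
      rw [map_mul, Matrix.mulVec_mulVec]
    | zero =>
      rw [Matrix.mulVec_zero]
      exact W.zero_mem
    | add x y _ _ hx hy =>
      rw [Matrix.mulVec_add]
      exact W.add_mem hx hy
    | smul a x _ hx =>
      rw [Matrix.mulVec_smul]
      exact W.smul_mem a hx) with h1 | h1
  · apply hT'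
    have h2 : ∀ x, T'.mulVec x = 0 := by
      intro x
      have h3 : T'.mulVec x ∈ W := by
        apply Submodule.subset_span
        exact ⟨1, x, by rw [map_one, Matrix.one_mulVec]⟩
      rw [h1] at h3
      exact (Submodule.mem_bot k).1 h3
    apply Matrix.toLin'.injective
    apply LinearMap.ext
    intro x
    rw [Matrix.toLin'_apply, h2, map_zero, LinearMap.zero_apply]
  · apply hT
    have h2 : ∀ x ∈ W, T.mulVec x = 0 := by
      intro x hx
      induction hx using Submodule.span_induction with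
      | mem y hy =>
        obtain ⟨u, x, rfl⟩ := hy
        rw [Matrix.mulVec_mulVec, Matrix.mulVec_mulVec, hcon, Matrix.zero_mulVec]
      | zero => rw [Matrix.mulVec_zero]
      | add x y _ _ hx hy => rw [Matrix.mulVec_add, hx, hy, add_zero]
      | smul a x _ hx => rw [Matrix.mulVec_smul, hx, smul_zero]
    apply Matrix.toLin'.injective
    apply LinearMap.ext
    intro x
    rw [Matrix.toLin'_apply, h2 x (by rw [h1]; trivial), map_zero, LinearMap.zero_apply]

/-- finitely many generic conditions -/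
theorem Irr.gen (h : Irr ρ) (hfi : ∀ N : Subgroup G, N.index ≠ 0 → N = ⊤) {ι : Type*}
    [Fintype ι] (b : ι → Bool) (T T' : ι → Matrix (Fin n) (Fin n) k) (hT : ∀ i, T i ≠ 0)
    (hT' : ∀ i, T' i ≠ 0) : ∃ u, ∀ i, T i * ρ (if b i then u else u⁻¹) * T' i ≠ 0 := by
  have h1 : ∀ i, ∃ u, T i * ρ (if b i then u else u⁻¹) * T' i ≠ 0 := by
    intro i
    obtain ⟨u, hu⟩ := h.one (hT i) (hT' i)
    cases hb : b i with
    | true => exact ⟨u, by simpa using hu⟩
    | false => exact ⟨u⁻¹, by simpa using hu⟩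
  have h2 : ∀ i, ∃ p : Fin n × Fin n, ∃ u,
      (T i * ρ (if b i then u else u⁻¹) * T' i) p.1 p.2 ≠ 0 := by
    intro i
    obtain ⟨u, hu⟩ := h1 i
    by_contra hc
    push Not at hc
    apply hu
    ext a c
    exact hc (a, c) u
  choose p hp using h2
  obtain ⟨u, hu⟩ := fin_gen' hfi Finset.univ
    (fun i u => (T i * ρ (if b i then u else u⁻¹) * T' i) (p i).1 (p i).2)
    (fun i _ => pol_entry (b i) (T i) (T' i) _ _) (fun i _ => hp i)
  refine ⟨u, fun i hi => hu i (Finset.mem_univ i) ?_⟩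
  rw [hi]
  rfl

end

end H64.BT
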